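import Pool.Agent.H38.ETU.Basic
import Pool.Agent.H38.ET8.W962.ET.CUT
import Pool.Agent.H38.ET8.W55.ET.SPA

/-!
# The truncated set, without boundedness
-/

set_option autoImplicit false

open Finset

namespace Pool.Agent.H38.ETU

open Pool.Agent.W247.ET
open Pool.Agent.W962.ET (mem_cut rep_eq_r rep_even)

lemma ee_mono (r : ℕ → ℝ) {L M : ℕ} (h : L ≤ M) : ee r L ≤ ee r M := by
  apply sum_le_sum_of_subset_of_nonneg
  · intro n hn
    rw [mem_Icc] at hn ⊢
    omega
  · intro n _ _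
    positivity

lemma card_sq (B : Finset ℕ) (N : ℕ) (T : ℝ) (hT : 0 < T) (s : Finset ℕ) (hs : s ⊆ B)
    (h0 : 0 ∉ B) (a : ℕ) (ha : ∀ x ∈ s, x ≤ a) (haN : a ≤ N) :
    (s.card : ℝ) ^ 2 ≤ 2 * a * (T + ee (fun n => (rep B n : ℝ)) (2 * N) / T) := by
  have h1 : (s ×ˢ s).card = ∑ n ∈ Icc 1 (2 * a), rep s n := by
    unfold rep
    apply card_eq_sum_card_fiberwise
    intro p hp
    rw [mem_coe, mem_product] at hp
    show p.1 + p.2 ∈ ((Icc 1 (2 * a) : Finset ℕ) : Set ℕ)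
    rw [mem_coe, mem_Icc]
    have h1 := ha _ hp.1
    have h2 := ha _ hp.2
    have h3 : p.1 ≠ 0 := fun h => h0 (h ▸ hs hp.1)
    omega
  have h2 : (s.card : ℝ) ^ 2 ≤ ∑ n ∈ Icc 1 (2 * a), (rep B n : ℝ) := by
    have h3 : s.card ^ 2 ≤ ∑ n ∈ Icc 1 (2 * a), rep B n := by
      calc s.card ^ 2 = (s ×ˢ s).card := by rw [card_product, pow_two]
        _ = ∑ n ∈ Icc 1 (2 * a), rep s n := h1
        _ ≤ ∑ n ∈ Icc 1 (2 * a), rep B n :=
            sum_le_sum fun n _ => Pool.Agent.W55.ET.rep_mono hs n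
    exact_mod_cast h3
  refine h2.trans ?_
  rcases Nat.eq_zero_or_pos a with h | h
  · subst h
    simp
  · have ha0 : (0 : ℝ) < a := by exact_mod_cast h
    have h4 := mean_le (fun n => (rep B n : ℝ)) (2 * a) T hT
    have h5 := ee_mono (fun n => (rep B n : ℝ)) (by omega : 2 * a ≤ 2 * N)
    rw [div_le_iff₀ (by push_cast; positivity)] at h4
    push_cast at h4
    have h6 : ee (fun n => (rep B n : ℝ)) (2 * a) / T ≤
        ee (fun n => (rep B n : ℝ)) (2 * N) / T := div_le_div_of_nonneg_right h5 hT.le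
    calc ∑ n ∈ Icc 1 (2 * a), (rep B n : ℝ)
        ≤ (T + ee (fun n => (rep B n : ℝ)) (2 * a) / T) * (2 * a) := h4
      _ ≤ (T + ee (fun n => (rep B n : ℝ)) (2 * N) / T) * (2 * a) :=
          mul_le_mul_of_nonneg_right (by linarith) (by positivity)
      _ = _ := by ring

lemma spa_aux (K : ℝ) (hK : 0 ≤ K) (N : ℕ) (B : Finset ℕ) : 0 ∉ B → B ⊆ Icc 1 N →
    (∀ s : Finset ℕ, s ⊆ B → ∀ a : ℕ, (∀ x ∈ s, x ≤ a) → a ≤ N → (s.card : ℝ) ^ 2 ≤ 2 * a * K) →
    ∑ a ∈ B, 1 / (a : ℝ) ≤ ∑ i ∈ range B.card, 2 * K * (1 / ((i : ℝ) + 1) ^ 2) := by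
  induction B using Finset.induction_on_max with
  | empty => intro _ _ _; simp
  | insert a s hs ih =>
    intro h0 hN hH
    have ha : a ∉ s := fun h => lt_irrefl _ (hs a h)
    have h0s : 0 ∉ s := fun h => h0 (mem_insert_of_mem h)
    have ha0 : a ≠ 0 := fun h => h0 (by rw [h]; exact mem_insert_self _ _)
    have haN : a ≤ N := (mem_Icc.1 (hN (mem_insert_self a s))).2
    have h1 := ih h0s (fun x hx => hN (mem_insert_of_mem hx))
      (fun t ht => hH t (ht.trans (subset_insert a s)))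
    have h2 := hH (insert a s) (Subset.refl _) a (by
      intro x hx
      rw [mem_insert] at hx
      rcases hx with rfl | hx
      · exact le_rfl
      · exact (hs x hx).le) haN
    rw [card_insert_of_notMem ha] at h2
    rw [sum_insert ha, card_insert_of_notMem ha, sum_range_succ]
    have hapos : (0 : ℝ) < a := by exact_mod_cast Nat.pos_of_ne_zero ha0
    push_cast at h2
    have h4 : 1 / (a : ℝ) ≤ 2 * K * (1 / ((s.card : ℝ) + 1) ^ 2) := by
      rw [mul_one_div, div_le_div_iff₀ hapos (by positivity)]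
      linarith
    linarith

/-- SPA without boundedness -/
theorem spa (B : Finset ℕ) (N : ℕ) (hB : B ⊆ Icc 1 N) (T : ℝ) (hT : 0 < T) :
    ∑ a ∈ B, 1 / (a : ℝ) ≤ 4 * T + 4 * ee (fun n => (rep B n : ℝ)) (2 * N) / T := by
  have h0 : 0 ∉ B := fun h => by
    have := (mem_Icc.1 (hB h)).1
    omega
  set E := ee (fun n => (rep B n : ℝ)) (2 * N) with hE
  have hE0 : 0 ≤ E := ee_nonneg _ _
  set K : ℝ := T + E / T with hK
  have hK0 : 0 ≤ K := by positivity
  refine (spa_aux K hK0 N B h0 hB (fun s hs a ha haN =>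
    card_sq B N T hT s hs h0 a ha haN)).trans ?_
  rw [← mul_sum]
  have h := Pool.Agent.W55.ET.sum_inv_sq_le B.card
  calc 2 * K * ∑ i ∈ range B.card, 1 / ((i : ℝ) + 1) ^ 2 ≤ 2 * K * 2 :=
        mul_le_mul_of_nonneg_left h (by positivity)
    _ = _ := by rw [hK]; ring

open Classical in
/-- the numbers with few representations -/
noncomputable def Dlow (l : ℕ) (A : Set ℕ) (N : ℕ) : ℝ :=
  ∑ n ∈ (Icc 1 N).filter (fun n => r A n ≤ 2 * l - 2), 1 / (n : ℝ)

open Classical in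
/-- the numbers with many representations -/
noncomputable def Dhigh (g : ℕ) (A : Set ℕ) (N : ℕ) : ℝ :=
  ∑ n ∈ (Icc 1 N).filter (fun n => 2 * g + 2 ≤ r A n), (r A n : ℝ) ^ 2 / (n : ℝ)

lemma Dlow_nonneg (l : ℕ) (A : Set ℕ) (N : ℕ) : 0 ≤ Dlow l A N :=
  sum_nonneg fun n _ => by positivity

lemma Dhigh_nonneg (g : ℕ) (A : Set ℕ) (N : ℕ) : 0 ≤ Dhigh g A N :=
  sum_nonneg fun n _ => by positivity

/-- the energy of the truncated set -/
theorem cut_energy (g : ℕ) (A : Set ℕ) (N : ℕ) :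
    ee (fun n => (rep (cut A N) n : ℝ)) (2 * N) ≤
      (2 * (g : ℝ) + 1) ^ 2 * ∑ n ∈ Icc 1 (2 * N), 1 / (n : ℝ) + Dhigh g A (2 * N) := by
  classical
  unfold ee Dhigh
  rw [sum_filter, mul_sum, ← sum_add_distrib]
  apply sum_le_sum
  intro n hn
  have hn0 := cpos hn
  have h1 := Pool.Agent.W962.ET.rep_le A N n
  have h2 : (rep (cut A N) n : ℝ) ≤ r A n := by exact_mod_cast h1
  split_ifs with h
  · have h3 : (rep (cut A N) n : ℝ) ^ 2 / n ≤ (r A n : ℝ) ^ 2 / n :=
      div_le_div_of_nonneg_right (pow_le_pow_left₀ (Nat.cast_nonneg _) h2 2) hn0.le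
    have h4 : 0 ≤ (2 * (g : ℝ) + 1) ^ 2 * (1 / n) := by positivity
    linarith
  · have h3 : (r A n : ℝ) ≤ 2 * g + 1 := by
      have : r A n ≤ 2 * g + 1 := by omega
      exact_mod_cast this
    rw [add_zero, mul_one_div]
    apply div_le_div_of_nonneg_right _ hn0.le
    exact pow_le_pow_left₀ (Nat.cast_nonneg _) (h2.trans h3) 2

/-- the zeros of the truncated set -/
theorem cut_zeros (l : ℕ) (A : Set ℕ) (N : ℕ) :
    ∑ n ∈ (Icc 1 N).filter (fun n => rep (cut A N) n = 0), 1 / (n : ℝ) ≤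
      Dlow l A N + ∑ a ∈ cut A N, 1 / (a : ℝ) := by
  classical
  set B := cut A N with hB
  set E : Finset ℕ := (Icc 1 N).filter (fun n => r A n ≤ 2 * l - 2) with hE
  have h1 : ∑ n ∈ (Icc 1 N).filter (fun n => rep B n = 0), 1 / (n : ℝ) ≤
      ∑ n ∈ E ∪ B, 1 / (n : ℝ) := by
    refine sum_le_sum_of_subset_of_nonneg (fun n hn => ?_) fun _ _ _ => by positivity
    obtain ⟨h2, h3⟩ := mem_filter.mp hn
    obtain ⟨hn1, hnN⟩ := mem_Icc.mp h2
    by_cases hnA : n ∈ A
    · exact mem_union_right _ (mem_cut.mpr ⟨⟨hn1, hnN⟩, hnA⟩)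
    · refine mem_union_left _ (mem_filter.mpr ⟨h2, ?_⟩)
      rw [← rep_eq_r A N n hnN hnA]
      rw [h3]
      omega
  have h2 : ∑ n ∈ E ∪ B, 1 / (n : ℝ) ≤ ∑ n ∈ E, 1 / (n : ℝ) + ∑ n ∈ B, 1 / (n : ℝ) := by
    rw [← sum_union_inter]
    have : 0 ≤ ∑ n ∈ E ∩ B, 1 / (n : ℝ) := sum_nonneg fun _ _ => by positivity
    linarith
  exact h1.trans h2

/-- the quadratic polynomial -/
theorem cut_quad (l g : ℕ) (hl : 1 ≤ l) (hlg : l ≤ g) (A : Set ℕ) (N : ℕ) :
    ∑ n ∈ Icc 1 (2 * N), (((rep (cut A N) n : ℝ) - 2 * l) * ((rep (cut A N) n : ℝ) - 2 * g)) / n ≤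
      Dhigh g A (2 * N) + (4 * l * g + 2 * g + 1) *
        (2 * ∑ a ∈ cut A N, 1 / (a : ℝ) + Dlow l A N + 1) := by
  classical
  set B := cut A N with hB
  set c3 : ℝ := 4 * l * g + 2 * g + 1 with hc3
  have hc30 : 0 ≤ c3 := by positivity
  have hl1 : (1 : ℝ) ≤ l := by exact_mod_cast hl
  have hlg' : (l : ℝ) ≤ g := by exact_mod_cast hlg
  set I2 : Finset ℕ := B.image (fun a => 2 * a) with hI2
  set E : Finset ℕ := (Icc 1 N).filter (fun n => r A n ≤ 2 * l - 2) with hE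
  set g1 : ℕ → ℝ := fun n => if n ∈ B then 1 / (n : ℝ) else 0 with hg1
  set g2 : ℕ → ℝ := fun n => if n ∈ I2 then 1 / (n : ℝ) else 0 with hg2
  set g3 : ℕ → ℝ := fun n => if n ∈ E then 1 / (n : ℝ) else 0 with hg3
  set g4 : ℕ → ℝ := fun n => if n ∈ Ioc N (2 * N) then 1 / (n : ℝ) else 0 with hg4
  set g5 : ℕ → ℝ := fun n => if 2 * g + 2 ≤ r A n then (r A n : ℝ) ^ 2 / n else 0 with hg5
  have n1 : ∀ n, 0 ≤ g1 n := fun n => by simp only [hg1]; split_ifs <;> positivity
  have n2 : ∀ n, 0 ≤ g2 n := fun n => by simp only [hg2]; split_ifs <;> positivity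
  have n3 : ∀ n, 0 ≤ g3 n := fun n => by simp only [hg3]; split_ifs <;> positivity
  have n4 : ∀ n, 0 ≤ g4 n := fun n => by simp only [hg4]; split_ifs <;> positivity
  have n5 : ∀ n, 0 ≤ g5 n := fun n => by simp only [hg5]; split_ifs <;> positivity
  have key : ∀ n ∈ Icc 1 (2 * N), (((rep B n : ℝ) - 2 * l) * ((rep B n : ℝ) - 2 * g)) / n ≤
      g5 n + c3 * (g1 n + g2 n + g3 n + g4 n) := by
    intro n hn
    obtain ⟨hn1, hn2⟩ := mem_Icc.mp hn
    have hn0 : (0 : ℝ) < n := by exact_mod_cast hn1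
    have m1 := n1 n
    have m2 := n2 n
    have m3 := n3 n
    have m4 := n4 n
    have m5 := n5 n
    have hR0 : (0 : ℝ) ≤ rep B n := Nat.cast_nonneg _
    have hRr : (rep B n : ℝ) ≤ r A n := by exact_mod_cast Pool.Agent.W962.ET.rep_le A N n
    by_cases c5 : 2 * g + 2 ≤ r A n
    · have h5 : g5 n = (r A n : ℝ) ^ 2 / n := if_pos c5
      have h6 : 2 * (g : ℝ) + 2 ≤ r A n := by exact_mod_cast c5
      have h7 : ((rep B n : ℝ) - 2 * l) * ((rep B n : ℝ) - 2 * g) ≤ (r A n : ℝ) ^ 2 := by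
        rcases le_total (rep B n : ℝ) (2 * l) with h8 | h8
        · have h9 : (2 * (l : ℝ) - rep B n) * (2 * g - rep B n) ≤ 2 * l * (2 * g) :=
            mul_le_mul (by linarith) (by linarith) (by linarith) (by positivity)
          nlinarith
        · rcases le_total (rep B n : ℝ) (2 * g) with h9 | h9
          · have : ((rep B n : ℝ) - 2 * l) * ((rep B n : ℝ) - 2 * g) ≤ 0 :=
              mul_nonpos_of_nonneg_of_nonpos (by linarith) (by linarith)
            nlinarith [sq_nonneg (r A n : ℝ)]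
          · have : ((rep B n : ℝ) - 2 * l) * ((rep B n : ℝ) - 2 * g) ≤
                (r A n : ℝ) * (r A n : ℝ) :=
              mul_le_mul (by linarith) (by linarith) (by linarith) (by positivity)
            nlinarith
      have h8 : (((rep B n : ℝ) - 2 * l) * ((rep B n : ℝ) - 2 * g)) / n ≤ (r A n : ℝ) ^ 2 / n :=
        div_le_div_of_nonneg_right h7 hn0.le
      have h9 : 0 ≤ c3 * (g1 n + g2 n + g3 n + g4 n) := by positivity
      linarith
    have hRg : (rep B n : ℝ) ≤ 2 * g + 1 := by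
      have : r A n ≤ 2 * g + 1 := by omega
      have h : (r A n : ℝ) ≤ 2 * g + 1 := by exact_mod_cast this
      linarith
    have hbd : (((rep B n : ℝ) - 2 * l) * ((rep B n : ℝ) - 2 * g)) / n ≤ c3 * (1 / n) := by
      rw [mul_one_div]
      refine div_le_div_of_nonneg_right ?_ hn0.le
      rw [hc3]
      nlinarith [mul_nonneg hR0 (by positivity : (0 : ℝ) ≤ l)]
    suffices h : (((rep B n : ℝ) - 2 * l) * ((rep B n : ℝ) - 2 * g)) / n ≤
        c3 * (g1 n + g2 n + g3 n + g4 n) by linarith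
    by_cases c1 : n ∈ B
    · have : g1 n = 1 / (n : ℝ) := if_pos c1
      refine hbd.trans ?_
      gcongr
      linarith
    by_cases c2 : n ∈ I2
    · have : g2 n = 1 / (n : ℝ) := if_pos c2
      refine hbd.trans ?_
      gcongr
      linarith
    by_cases c3' : n ∈ E
    · have : g3 n = 1 / (n : ℝ) := if_pos c3'
      refine hbd.trans ?_
      gcongr
      linarith
    by_cases c4 : n ∈ Ioc N (2 * N)
    · have : g4 n = 1 / (n : ℝ) := if_pos c4
      refine hbd.trans ?_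
      gcongr
      linarith
    · have hnN : n ≤ N := by
        by_contra h
        exact c4 (mem_Ioc.mpr ⟨by omega, hn2⟩)
      have hnA : n ∉ A := fun h => c1 (mem_cut.mpr ⟨⟨hn1, hnN⟩, h⟩)
      have hr := rep_eq_r A N n hnN hnA
      have hev : Even (rep B n) := rep_even B n fun a ha he =>
        c2 (mem_image.mpr ⟨a, ha, he.symm⟩)
      have hne : ¬ (r A n ≤ 2 * l - 2) := fun h =>
        c3' (mem_filter.mpr ⟨mem_Icc.mpr ⟨hn1, hnN⟩, h⟩)
      rw [← hr, ← hB] at hne c5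
      obtain ⟨t, ht⟩ := hev
      have h1 : 2 * l ≤ rep B n ∧ rep B n ≤ 2 * g := by
        omega
      have h2 : 2 * (l : ℝ) ≤ rep B n := by exact_mod_cast h1.1
      have h3 : (rep B n : ℝ) ≤ 2 * g := by exact_mod_cast h1.2
      have h4 : (((rep B n : ℝ) - 2 * l) * ((rep B n : ℝ) - 2 * g)) / n ≤ 0 := by
        refine div_nonpos_of_nonpos_of_nonneg ?_ hn0.le
        exact mul_nonpos_of_nonneg_of_nonpos (by linarith) (by linarith)
      refine h4.trans ?_
      positivity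
  refine (sum_le_sum key).trans ?_
  rw [sum_add_distrib, ← mul_sum, sum_add_distrib, sum_add_distrib, sum_add_distrib]
  have s1 : ∑ n ∈ Icc 1 (2 * N), g1 n ≤ ∑ a ∈ B, 1 / (a : ℝ) := by
    simp only [hg1]
    rw [← sum_filter]
    refine sum_le_sum_of_subset_of_nonneg (fun n hn => (mem_filter.mp hn).2) fun _ _ _ => ?_
    positivity
  have s2 : ∑ n ∈ Icc 1 (2 * N), g2 n ≤ ∑ a ∈ B, 1 / (a : ℝ) := by
    simp only [hg2]
    rw [← sum_filter]
    calc ∑ n ∈ (Icc 1 (2 * N)).filter (fun n => n ∈ I2), 1 / (n : ℝ)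
        ≤ ∑ n ∈ I2, 1 / (n : ℝ) :=
          sum_le_sum_of_subset_of_nonneg (fun n hn => (mem_filter.mp hn).2)
            fun _ _ _ => by positivity
      _ = ∑ a ∈ B, 1 / ((2 * a : ℕ) : ℝ) := by
          rw [hI2]
          exact sum_image fun a _ b _ h => by simpa using h
      _ ≤ ∑ a ∈ B, 1 / (a : ℝ) := by
          refine sum_le_sum fun a ha => ?_
          have h1 := (mem_cut.mp ha).1.1
          have h2 : (0 : ℝ) < a := by exact_mod_cast h1
          apply one_div_le_one_div_of_le h2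
          push_cast
          linarith
  have s3 : ∑ n ∈ Icc 1 (2 * N), g3 n ≤ Dlow l A N := by
    simp only [hg3]
    rw [← sum_filter]
    refine sum_le_sum_of_subset_of_nonneg (fun n hn => (mem_filter.mp hn).2) fun _ _ _ => ?_
    positivity
  have s4 : ∑ n ∈ Icc 1 (2 * N), g4 n ≤ 1 := by
    simp only [hg4]
    rw [← sum_filter]
    rcases Nat.eq_zero_or_pos N with hN | hN
    · subst hN
      simp
    have hN0 : (0 : ℝ) < N := by exact_mod_cast hN
    calc ∑ n ∈ (Icc 1 (2 * N)).filter (fun n => n ∈ Ioc N (2 * N)), 1 / (n : ℝ)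
        ≤ ∑ n ∈ Ioc N (2 * N), 1 / (n : ℝ) :=
          sum_le_sum_of_subset_of_nonneg (fun n hn => (mem_filter.mp hn).2)
            fun _ _ _ => by positivity
      _ ≤ ∑ _n ∈ Ioc N (2 * N), 1 / (N : ℝ) := by
          refine sum_le_sum fun n hn => ?_
          have h1 : (N : ℝ) ≤ n := by exact_mod_cast (mem_Ioc.mp hn).1.le
          exact one_div_le_one_div_of_le hN0 h1
      _ = 1 := by
          rw [sum_const, Nat.card_Ioc, nsmul_eq_mul]
          have : 2 * N - N = N := by omega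
          rw [this, mul_one_div_cancel hN0.ne']
  have s5 : ∑ n ∈ Icc 1 (2 * N), g5 n = Dhigh g A (2 * N) := by
    simp only [hg5, Dhigh]
    rw [sum_filter]
  rw [s5]
  apply add_le_add le_rfl
  apply mul_le_mul_of_nonneg_left _ hc30
  linarith

end Pool.Agent.H38.ETU
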