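import Pool.Agent.H38.ETU.Basic
import Pool.Agent.H38.ET8.W451.ET.VB
import Pool.Agent.H38.ET8.W369.ET.VC
import Pool.Agent.H38.ET8.W253.ET.VD

/-!
# The kernel sums, without boundedness
-/

set_option autoImplicit false

open Finset

namespace Pool.Agent.H38.ETU

open Pool.Agent.W247.ET
open Pool.Agent.W451.ET.VB (T T_symm T_range kap_diff kap_one sum_cube)

lemma qq_range (r : ℕ → ℝ) (L : ℕ) :
    qq r L = ∑ n ∈ range L, r (n + 1) ^ 2 / ((n : ℝ) + 1) ^ 2 := by
  unfold qq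
  rw [Pool.Agent.W451.ET.VB.icc_range (fun n => r n ^ 2 / (n : ℝ) ^ 2)]
  apply sum_congr rfl
  intro n _
  push_cast
  rfl

lemma first_bound (L : ℕ) (a b : ℕ → ℝ) (hL : 1 ≤ L) :
    |∑ m ∈ range L, a 1 * b (m + 1) * kap 1 (m + 1)| ≤ qq a L + 1 / 2 * qq b L := by
  have hk : ∀ m : ℕ, |kap 1 (m + 1)| ≤ 1 / ((m : ℝ) + 1) ^ 2 := by
    intro m
    refine (kap_one m).trans ?_
    have hm : (0 : ℝ) ≤ m := Nat.cast_nonneg m
    have e : 1 / ((m : ℝ) + 1) - 1 / ((m : ℝ) + 2) = 1 / (((m : ℝ) + 1) * (m + 2)) := by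
      field_simp
      ring
    rw [e]
    apply one_div_le_one_div_of_le (by positivity)
    nlinarith
  have ha : a 1 ^ 2 ≤ qq a L := by
    unfold qq
    have h1 : (1 : ℕ) ∈ Icc 1 L := by rw [mem_Icc]; omega
    have := single_le_sum (f := fun n : ℕ => a n ^ 2 / (n : ℝ) ^ 2) (s := Icc 1 L)
      (fun n _ => by positivity) h1
    simpa using this
  have hsq : ∑ m ∈ range L, 1 / ((m : ℝ) + 1) ^ 2 ≤ 2 := by
    have h := sum_inv_sq L
    rw [Pool.Agent.W451.ET.VB.icc_range (fun n => 1 / (n : ℝ) ^ 2)] at h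
    push_cast at h
    exact h
  refine (abs_sum_le_sum_abs _ _).trans ?_
  calc ∑ m ∈ range L, |a 1 * b (m + 1) * kap 1 (m + 1)|
      ≤ ∑ m ∈ range L, (1 / 2 * a 1 ^ 2 * (1 / ((m : ℝ) + 1) ^ 2) +
          1 / 2 * (b (m + 1) ^ 2 / ((m : ℝ) + 1) ^ 2)) := by
        apply sum_le_sum
        intro m _
        rw [abs_mul]
        have h1 : |a 1 * b (m + 1)| ≤ 1 / 2 * a 1 ^ 2 + 1 / 2 * b (m + 1) ^ 2 := by
          rw [abs_mul]
          nlinarith [sq_nonneg (|a 1| - |b (m + 1)|), sq_abs (a 1), sq_abs (b (m + 1))]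
        have h2 := hk m
        have h3 : 0 ≤ 1 / ((m : ℝ) + 1) ^ 2 := by positivity
        calc |a 1 * b (m + 1)| * |kap 1 (m + 1)|
            ≤ (1 / 2 * a 1 ^ 2 + 1 / 2 * b (m + 1) ^ 2) * (1 / ((m : ℝ) + 1) ^ 2) :=
              mul_le_mul h1 h2 (abs_nonneg _) (by positivity)
          _ = _ := by ring
    _ = 1 / 2 * a 1 ^ 2 * ∑ m ∈ range L, 1 / ((m : ℝ) + 1) ^ 2 + 1 / 2 * qq b L := by
        rw [sum_add_distrib, ← mul_sum, ← mul_sum, qq_range b]
    _ ≤ 1 / 2 * a 1 ^ 2 * 2 + 1 / 2 * qq b L := by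
        apply add_le_add _ le_rfl
        exact mul_le_mul_of_nonneg_left hsq (by positivity)
    _ ≤ qq a L + 1 / 2 * qq b L := by linarith

lemma second_bound (L : ℕ) (a b : ℕ → ℝ) (haL : ∀ n, L < n → a n = 0) :
    |∑ n ∈ range L, ∑ m ∈ range L, a (n + 2) * b (m + 1) *
        (kap (n + 2) (m + 1) - kap (n + 1) (m + 1))| ≤ qq a L + 1 / 2 * qq b L := by
  have hs1 : ∀ n : ℕ, ∑ m ∈ range L, 2 / (((n : ℝ) + 1) + (m + 1)) ^ 3 ≤
      1 / (((n : ℝ) + 1) * (n + 2)) := by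
    intro n
    refine (sum_cube ((n : ℝ) + 1) (by positivity) L).trans (le_of_eq ?_)
    field_simp
    ring
  have hs2 : ∀ m : ℕ, ∑ n ∈ range L, 2 / (((n : ℝ) + 1) + (m + 1)) ^ 3 ≤
      1 / ((m : ℝ) + 1) ^ 2 := by
    intro m
    have e : ∑ n ∈ range L, 2 / (((n : ℝ) + 1) + (m + 1)) ^ 3 =
        ∑ n ∈ range L, 2 / (((m : ℝ) + 1) + (n + 1)) ^ 3 := by
      apply sum_congr rfl
      intro n _
      rw [show ((n : ℝ) + 1) + (m + 1) = ((m : ℝ) + 1) + (n + 1) by ring]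
    rw [e]
    refine (hs1 m).trans ?_
    apply one_div_le_one_div_of_le (by positivity)
    have : (0 : ℝ) ≤ m := Nat.cast_nonneg m
    nlinarith
  refine (abs_sum_le_sum_abs _ _).trans ?_
  calc ∑ n ∈ range L, |∑ m ∈ range L, a (n + 2) * b (m + 1) *
        (kap (n + 2) (m + 1) - kap (n + 1) (m + 1))|
      ≤ ∑ n ∈ range L, ∑ m ∈ range L, (1 / 2 * a (n + 2) ^ 2 *
          (2 / (((n : ℝ) + 1) + (m + 1)) ^ 3) + 1 / 2 * b (m + 1) ^ 2 *
          (2 / (((n : ℝ) + 1) + (m + 1)) ^ 3)) := by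
        apply sum_le_sum
        intro n _
        refine (abs_sum_le_sum_abs _ _).trans ?_
        apply sum_le_sum
        intro m _
        rw [abs_mul]
        have h1 : |a (n + 2) * b (m + 1)| ≤ 1 / 2 * a (n + 2) ^ 2 + 1 / 2 * b (m + 1) ^ 2 := by
          rw [abs_mul]
          nlinarith [sq_nonneg (|a (n + 2)| - |b (m + 1)|), sq_abs (a (n + 2)),
            sq_abs (b (m + 1))]
        have h2 := kap_diff n m
        calc |a (n + 2) * b (m + 1)| * |kap (n + 2) (m + 1) - kap (n + 1) (m + 1)|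
            ≤ (1 / 2 * a (n + 2) ^ 2 + 1 / 2 * b (m + 1) ^ 2) *
              (2 / (((n : ℝ) + 1) + (m + 1)) ^ 3) :=
              mul_le_mul h1 h2 (abs_nonneg _) (by positivity)
          _ = _ := by ring
    _ = ∑ n ∈ range L, 1 / 2 * a (n + 2) ^ 2 * ∑ m ∈ range L,
          2 / (((n : ℝ) + 1) + (m + 1)) ^ 3 +
        ∑ m ∈ range L, 1 / 2 * b (m + 1) ^ 2 * ∑ n ∈ range L,
          2 / (((n : ℝ) + 1) + (m + 1)) ^ 3 := by
        simp only [sum_add_distrib, mul_sum]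
        congr 1
        rw [sum_comm]
    _ ≤ ∑ n ∈ range L, a (n + 2) ^ 2 / ((n : ℝ) + 2) ^ 2 +
        ∑ m ∈ range L, 1 / 2 * (b (m + 1) ^ 2 / ((m : ℝ) + 1) ^ 2) := by
        apply add_le_add
        · apply sum_le_sum
          intro n _
          have hn : (0 : ℝ) ≤ n := Nat.cast_nonneg n
          calc 1 / 2 * a (n + 2) ^ 2 * ∑ m ∈ range L, 2 / (((n : ℝ) + 1) + (m + 1)) ^ 3
              ≤ 1 / 2 * a (n + 2) ^ 2 * (1 / (((n : ℝ) + 1) * (n + 2))) :=
                mul_le_mul_of_nonneg_left (hs1 n) (by positivity)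
            _ = a (n + 2) ^ 2 * (1 / (2 * (((n : ℝ) + 1) * (n + 2)))) := by
                field_simp
            _ ≤ a (n + 2) ^ 2 * (1 / ((n : ℝ) + 2) ^ 2) := by
                apply mul_le_mul_of_nonneg_left _ (sq_nonneg _)
                apply one_div_le_one_div_of_le (by positivity)
                nlinarith
            _ = a (n + 2) ^ 2 / ((n : ℝ) + 2) ^ 2 := by ring
        · apply sum_le_sum
          intro m _
          calc 1 / 2 * b (m + 1) ^ 2 * ∑ n ∈ range L, 2 / (((n : ℝ) + 1) + (m + 1)) ^ 3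
              ≤ 1 / 2 * b (m + 1) ^ 2 * (1 / ((m : ℝ) + 1) ^ 2) :=
                mul_le_mul_of_nonneg_left (hs2 m) (by positivity)
            _ = 1 / 2 * (b (m + 1) ^ 2 / ((m : ℝ) + 1) ^ 2) := by ring
    _ ≤ qq a L + 1 / 2 * qq b L := by
        apply add_le_add
        · have h1 : qq a (L + 1) = qq a L := by
            unfold qq
            rw [sum_Icc_succ_top (by omega), haL (L + 1) (by omega)]
            simp
          rw [← h1, qq_range, sum_range_succ']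
          have h2 : (0 : ℝ) ≤ a (0 + 1) ^ 2 / (((0 : ℕ) : ℝ) + 1) ^ 2 := by positivity
          have h3 : ∑ n ∈ range L, a (n + 2) ^ 2 / ((n : ℝ) + 2) ^ 2 =
              ∑ k ∈ range L, a (k + 1 + 1) ^ 2 / (((k + 1 : ℕ) : ℝ) + 1) ^ 2 := by
            apply sum_congr rfl
            intro n _
            push_cast
            rw [show (n : ℝ) + 1 + 1 = n + 2 by ring]
          rw [h3]
          linarith
        · rw [qq_range b, mul_sum]

lemma step (L : ℕ) (a b : ℕ → ℝ) (hL : 1 ≤ L) (haL : ∀ n, L < n → a n = 0) :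
    |T L (fun n => a (n + 1)) b - T L a b| ≤ 2 * qq a L + qq b L := by
  have e1 : T L a b = ∑ m ∈ range L, a 1 * b (m + 1) * kap 1 (m + 1) +
      ∑ n ∈ range L, ∑ m ∈ range L, a (n + 2) * b (m + 1) * kap (n + 2) (m + 1) := by
    rw [T_range]
    have h1 := Finset.sum_range_succ (fun n => ∑ m ∈ range L, a (n + 1) * b (m + 1) *
      kap (n + 1) (m + 1)) L
    have h2 := Finset.sum_range_succ' (fun n => ∑ m ∈ range L, a (n + 1) * b (m + 1) *
      kap (n + 1) (m + 1)) L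
    have h3 : ∑ m ∈ range L, a (L + 1) * b (m + 1) * kap (L + 1) (m + 1) = 0 := by
      rw [haL (L + 1) (by omega)]
      simp
    rw [h3, add_zero] at h1
    rw [← h1, h2, add_comm]
  have e2 : T L (fun n => a (n + 1)) b - T L a b =
      - (∑ m ∈ range L, a 1 * b (m + 1) * kap 1 (m + 1)) -
      ∑ n ∈ range L, ∑ m ∈ range L, a (n + 2) * b (m + 1) *
        (kap (n + 2) (m + 1) - kap (n + 1) (m + 1)) := by
    rw [e1, T_range]
    simp only [mul_sub, Finset.sum_sub_distrib]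
    ring
  have b1 := first_bound L a b hL
  have b2 := second_bound L a b haL
  rw [e2]
  rw [abs_le] at b1 b2 ⊢
  constructor <;> linarith

lemma steps (L J : ℕ) (r b : ℕ → ℝ) (hL : 1 ≤ L) (hJ : 1 ≤ J) (hrL : ∀ n, L < n → r n = 0)
    (Q : ℝ) (hb : qq b L ≤ (J : ℝ) ^ 2 * Q) (hr : qq r L ≤ Q) (i : ℕ) (hi : i ≤ J) :
    |T L (fun n => r (n + i)) b - T L r b| ≤ i * (3 * (J : ℝ) ^ 2 * Q) := by
  induction i with
  | zero => simp
  | succ i ih =>
    have h1 := step L (fun n => r (n + i)) b hL (fun n hn => hrL _ (by omega))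
    have e : (fun n => (fun n => r (n + i)) (n + 1)) = (fun n => r (n + (i + 1))) := by
      funext n
      show r (n + 1 + i) = r (n + (i + 1))
      rw [show n + 1 + i = n + (i + 1) by omega]
    rw [e] at h1
    have h2 := shift_qq r L hrL i J (by omega)
    have h3 : (J : ℝ) ^ 2 * qq r L ≤ (J : ℝ) ^ 2 * Q := mul_le_mul_of_nonneg_left hr (by positivity)
    have h4 := ih (by omega)
    push_cast
    rw [abs_le] at h1 h4 ⊢
    constructor <;> linarith

/-- VB without boundedness -/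
theorem vb (J : ℕ) (hJ : 1 ≤ J) (r : ℕ → ℝ) (L : ℕ) (hL : 1 ≤ L)
    (hrL : ∀ n, L < n → r n = 0) :
    ∑ n ∈ Icc 1 L, ∑ m ∈ Icc 1 L, r n * r m * kap n m ≤
      ∑ n ∈ Icc 1 L, ∑ m ∈ Icc 1 L, Mw r J n * Mw r J m * kap n m +
      6 * (J : ℝ) ^ 3 * qq r L := by
  have hJ0 : (0 : ℝ) < J := by exact_mod_cast hJ
  have hJ1 : (1 : ℝ) ≤ J := by exact_mod_cast hJ
  have hq0 := qq_nonneg r L
  set q : ℝ := qq r L with hq
  have hqJ : q ≤ (J : ℝ) ^ 2 * q := by
    have : (1 : ℝ) ≤ (J : ℝ) ^ 2 := by nlinarith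
    nlinarith
  have h1 : ∀ i ∈ range J, ∀ i' ∈ range J,
      T L r r - 6 * (J : ℝ) ^ 3 * q ≤ T L (fun n => r (n + i)) (fun n => r (n + i')) := by
    intro i hi i' hi'
    rw [Finset.mem_range] at hi hi'
    have a1 := steps L J r r hL hJ hrL q hqJ le_rfl i' hi'.le
    have a2 := steps L J r (fun n => r (n + i')) hL hJ hrL q
      (shift_qq r L hrL i' J hi') le_rfl i hi.le
    rw [T_symm L r (fun n => r (n + i'))] at a2
    have hi1 : (i : ℝ) ≤ J := by exact_mod_cast hi.le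
    have hi2 : (i' : ℝ) ≤ J := by exact_mod_cast hi'.le
    have hK : 0 ≤ 3 * (J : ℝ) ^ 2 * q := by positivity
    have b1 := mul_le_mul_of_nonneg_right hi1 hK
    have b2 := mul_le_mul_of_nonneg_right hi2 hK
    have e : 6 * (J : ℝ) ^ 3 * q = J * (3 * (J : ℝ) ^ 2 * q) + J * (3 * (J : ℝ) ^ 2 * q) := by ring
    rw [abs_le] at a1 a2
    linarith [a1.1, a2.1]
  have h2 : ∑ n ∈ Icc 1 L, ∑ m ∈ Icc 1 L, Mw r J n * Mw r J m * kap n m =
      (∑ i ∈ range J, ∑ i' ∈ range J, T L (fun n => r (n + i)) (fun n => r (n + i'))) /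
        (J : ℝ) ^ 2 := by
    unfold T
    rw [eq_div_iff (by positivity)]
    have e1 : ∀ n m : ℕ, Mw r J n * Mw r J m * kap n m * (J : ℝ) ^ 2 =
        ∑ i ∈ range J, ∑ i' ∈ range J, r (n + i) * r (m + i') * kap n m := by
      intro n m
      unfold Mw
      have e2 : ∑ i ∈ range J, ∑ i' ∈ range J, r (n + i) * r (m + i') * kap n m =
          (∑ i ∈ range J, r (n + i)) * (∑ i' ∈ range J, r (m + i')) * kap n m := by
        rw [Finset.sum_mul_sum, Finset.sum_mul]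
        refine Finset.sum_congr rfl fun i _ => ?_
        rw [Finset.sum_mul]
      rw [e2]
      field_simp
    rw [Finset.sum_mul]
    simp_rw [Finset.sum_mul, e1]
    have c1 : ∀ n ∈ Icc 1 L, ∑ m ∈ Icc 1 L, ∑ i ∈ range J, ∑ i' ∈ range J,
        r (n + i) * r (m + i') * kap n m = ∑ i ∈ range J, ∑ i' ∈ range J, ∑ m ∈ Icc 1 L,
        r (n + i) * r (m + i') * kap n m := by
      intro n _
      rw [Finset.sum_comm]
      refine Finset.sum_congr rfl fun i _ => ?_
      rw [Finset.sum_comm]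
    rw [Finset.sum_congr rfl c1, Finset.sum_comm]
    refine Finset.sum_congr rfl fun i _ => ?_
    rw [Finset.sum_comm]
  rw [h2]
  have h3 : (∑ i ∈ range J, ∑ i' ∈ range J, (T L r r - 6 * (J : ℝ) ^ 3 * q)) ≤
      ∑ i ∈ range J, ∑ i' ∈ range J, T L (fun n => r (n + i)) (fun n => r (n + i')) :=
    Finset.sum_le_sum fun i hi => Finset.sum_le_sum fun i' hi' => h1 i hi i' hi'
  simp only [Finset.sum_const, Finset.card_range, nsmul_eq_mul] at h3
  have h4 : T L r r - 6 * (J : ℝ) ^ 3 * q ≤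
      (∑ i ∈ range J, ∑ i' ∈ range J, T L (fun n => r (n + i)) (fun n => r (n + i'))) /
        (J : ℝ) ^ 2 := by
    rw [le_div_iff₀ (by positivity)]
    nlinarith
  have h5 : T L r r = ∑ n ∈ Icc 1 L, ∑ m ∈ Icc 1 L, r n * r m * kap n m := rfl
  linarith

/-- VC without boundedness, with an arbitrary centre -/
theorem vc (lam : ℝ) (hlam : 0 ≤ lam) (T : ℝ) (hT : 0 < T) (u : ℕ → ℝ) (L : ℕ)
    (hu : ∀ n, 0 ≤ u n) :
    ∑ n ∈ Icc 1 L, ∑ m ∈ Icc 1 L, u n * u m * kap n m ≤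
      ∑ n ∈ Icc 1 L, ∑ m ∈ Icc 1 L, (u n - lam) * (u m - lam) * kap n m +
      (lam * (2 + qq u L) + lam / 2 * (T + ee u L / T) + 5 / 4 * lam ^ 2) := by
  rcases Nat.eq_zero_or_pos L with h | hL
  · subst h
    have h1 : 0 ≤ qq u 0 := qq_nonneg _ _
    have h2 : 0 ≤ ee u 0 := ee_nonneg _ _
    simp only [show Icc 1 0 = (∅ : Finset ℕ) from rfl, sum_empty]
    positivity
  have hL0 : (0 : ℝ) < L := by exact_mod_cast hL
  have h1 : ∑ n ∈ Icc 1 L, ∑ m ∈ Icc 1 L, u n * u m * kap n m =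
      ∑ n ∈ Icc 1 L, ∑ m ∈ Icc 1 L, (u n - lam) * (u m - lam) * kap n m +
      ∑ n ∈ Icc 1 L, (lam * u n - lam ^ 2 / 2) * Pool.Agent.W369.ET.kb n L +
      ∑ n ∈ Icc 1 L, (lam * u n - lam ^ 2 / 2) * Pool.Agent.W369.ET.kb n L := by
    have h2 : ∑ n ∈ Icc 1 L, (lam * u n - lam ^ 2 / 2) * Pool.Agent.W369.ET.kb n L =
        ∑ n ∈ Icc 1 L, ∑ m ∈ Icc 1 L, (lam * u n - lam ^ 2 / 2) * kap n m :=
      Finset.sum_congr rfl fun n _ => by rw [Pool.Agent.W369.ET.kb, Finset.mul_sum]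
    have h3 : ∑ n ∈ Icc 1 L, ∑ m ∈ Icc 1 L, (lam * u n - lam ^ 2 / 2) * kap n m =
        ∑ n ∈ Icc 1 L, ∑ m ∈ Icc 1 L, (lam * u m - lam ^ 2 / 2) * kap n m := by
      rw [Finset.sum_comm]
      refine Finset.sum_congr rfl fun n _ => Finset.sum_congr rfl fun m _ => ?_
      rw [Pool.Agent.W369.ET.kap_symm]
    conv_rhs => rw [h2]
    conv_rhs => arg 2; rw [h3]
    rw [← Finset.sum_add_distrib, ← Finset.sum_add_distrib]
    refine Finset.sum_congr rfl fun n _ => ?_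
    rw [← Finset.sum_add_distrib, ← Finset.sum_add_distrib]
    refine Finset.sum_congr rfl fun m _ => ?_
    ring
  have hkb : ∀ n ∈ Icc 1 L, |Pool.Agent.W369.ET.kb n L| ≤
      1 / 2 * (1 / (n : ℝ) ^ 2) + 1 / (4 * (L : ℝ)) := by
    intro n hn
    have hn1 := (Finset.mem_Icc.1 hn).1
    have h3 := Pool.Agent.W369.ET.kb_sub hn1 L
    have h4 := Pool.Agent.W369.ET.Fm_le n hL
    have h5 : Pool.Agent.W369.ET.kb n L = (Pool.Agent.W369.ET.kb n L - Pool.Agent.W369.ET.Fm n L)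
      + Pool.Agent.W369.ET.Fm n L := by ring
    have h6 : 0 ≤ 1 / ((n : ℝ) + L) ^ 2 := by positivity
    have h7 := abs_add_le (Pool.Agent.W369.ET.kb n L - Pool.Agent.W369.ET.Fm n L)
      (Pool.Agent.W369.ET.Fm n L)
    rw [← h5] at h7
    linarith
  have h4 : ∑ n ∈ Icc 1 L, (lam * u n - lam ^ 2 / 2) * Pool.Agent.W369.ET.kb n L ≤
      1 / 2 * (lam * (2 + qq u L)) + lam / 4 * (T + ee u L / T) + 5 / 8 * lam ^ 2 := by
    calc ∑ n ∈ Icc 1 L, (lam * u n - lam ^ 2 / 2) * Pool.Agent.W369.ET.kb n L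
        ≤ ∑ n ∈ Icc 1 L, (lam * u n + lam ^ 2 / 2) *
            (1 / 2 * (1 / (n : ℝ) ^ 2) + 1 / (4 * (L : ℝ))) := by
          apply sum_le_sum
          intro n hn
          have h8 : |lam * u n - lam ^ 2 / 2| ≤ lam * u n + lam ^ 2 / 2 := by
            have h9 : 0 ≤ lam * u n := mul_nonneg hlam (hu n)
            rw [abs_le]
            constructor <;> nlinarith [sq_nonneg lam]
          calc (lam * u n - lam ^ 2 / 2) * Pool.Agent.W369.ET.kb n L
              ≤ |(lam * u n - lam ^ 2 / 2) * Pool.Agent.W369.ET.kb n L| := le_abs_self _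
            _ = |lam * u n - lam ^ 2 / 2| * |Pool.Agent.W369.ET.kb n L| := abs_mul _ _
            _ ≤ _ := mul_le_mul h8 (hkb n hn) (abs_nonneg _)
                (add_nonneg (mul_nonneg hlam (hu n)) (by positivity))
      _ = lam / 2 * ∑ n ∈ Icc 1 L, u n / (n : ℝ) ^ 2 + lam / 4 * ((∑ n ∈ Icc 1 L, u n) / L) +
          lam ^ 2 / 4 * ∑ n ∈ Icc 1 L, 1 / (n : ℝ) ^ 2 +
          lam ^ 2 / 8 * ((∑ _n ∈ Icc 1 L, (1 : ℝ)) / L) := by
          simp only [mul_sum, sum_div, ← sum_add_distrib]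
          apply sum_congr rfl
          intro n hn
          have := cpos hn
          field_simp
          ring
      _ ≤ lam / 2 * (2 + qq u L) + lam / 4 * (T + ee u L / T) + lam ^ 2 / 4 * 2 +
          lam ^ 2 / 8 * 1 := by
          have e1 := mul_le_mul_of_nonneg_left (lin_sq u L) (by positivity : 0 ≤ lam / 2)
          have e2 := mul_le_mul_of_nonneg_left (mean_le u L T hT) (by positivity : 0 ≤ lam / 4)
          have e3 := mul_le_mul_of_nonneg_left (sum_inv_sq L) (by positivity : 0 ≤ lam ^ 2 / 4)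
          have e4 : (∑ _n ∈ Icc 1 L, (1 : ℝ)) / L = 1 := by
            rw [sum_const, Nat.card_Icc, nsmul_eq_mul]
            have : ((L + 1 - 1 : ℕ) : ℝ) = L := by norm_num
            rw [this]
            field_simp
          rw [e4]
          linarith
      _ = _ := by ring
  rw [h1]
  linarith

/-- VD without boundedness -/
theorem vd (d : ℕ → ℝ) (L : ℕ) :
    ∑ n ∈ Icc 1 L, ∑ m ∈ Icc 1 L, d n * d m * kap n m ≤
      1 / 2 * ee d L + 3 / 2 * qq d L := by
  have h1 : ∑ n ∈ Icc 1 L, ∑ m ∈ Icc 1 L, d n * d m * kap n m ≤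
      ∑ n ∈ Icc 1 L, ∑ m ∈ Icc 1 L, (1 / 2 * (d n ^ 2 * |kap n m|) +
        1 / 2 * (d m ^ 2 * |kap n m|)) := by
    refine Finset.sum_le_sum fun n _ => Finset.sum_le_sum fun m _ => ?_
    have h2 : d n * d m * kap n m ≤ |d n * d m| * |kap n m| := by
      rw [← abs_mul]; exact le_abs_self _
    have h3 : |d n * d m| ≤ 1 / 2 * (d n ^ 2 + d m ^ 2) := by
      rw [abs_mul]
      nlinarith [sq_nonneg (|d n| - |d m|), sq_abs (d n), sq_abs (d m)]
    have h4 := mul_le_mul_of_nonneg_right h3 (abs_nonneg (kap n m))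
    linarith
  have h2 : ∑ n ∈ Icc 1 L, ∑ m ∈ Icc 1 L, (1 / 2 * (d n ^ 2 * |kap n m|) +
        1 / 2 * (d m ^ 2 * |kap n m|)) =
      ∑ n ∈ Icc 1 L, d n ^ 2 * ∑ m ∈ Icc 1 L, |kap n m| := by
    have e1 : ∑ n ∈ Icc 1 L, ∑ m ∈ Icc 1 L, 1 / 2 * (d m ^ 2 * |kap n m|) =
        ∑ n ∈ Icc 1 L, ∑ m ∈ Icc 1 L, 1 / 2 * (d n ^ 2 * |kap n m|) := by
      rw [Finset.sum_comm]
      refine Finset.sum_congr rfl fun n _ => Finset.sum_congr rfl fun m _ => ?_
      rw [Pool.Agent.W253.ET.VD.kap_symm]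
    simp only [Finset.sum_add_distrib]
    rw [e1, ← Finset.sum_add_distrib]
    refine Finset.sum_congr rfl fun n _ => ?_
    rw [← Finset.mul_sum, ← Finset.mul_sum]
    ring
  have h3 : ∑ n ∈ Icc 1 L, d n ^ 2 * ∑ m ∈ Icc 1 L, |kap n m| ≤
      ∑ n ∈ Icc 1 L, (1 / 2 * (d n ^ 2 / n) + 3 / 2 * (d n ^ 2 / (n : ℝ) ^ 2)) := by
    refine Finset.sum_le_sum fun n hn => ?_
    have hn1 : 1 ≤ n := (Finset.mem_Icc.1 hn).1
    have h4 := mul_le_mul_of_nonneg_left (Pool.Agent.W253.ET.VD.row n L hn1) (sq_nonneg (d n))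
    refine h4.trans (le_of_eq ?_)
    ring
  have h4 : ∑ n ∈ Icc 1 L, (1 / 2 * (d n ^ 2 / n) + 3 / 2 * (d n ^ 2 / (n : ℝ) ^ 2)) =
      1 / 2 * ee d L + 3 / 2 * qq d L := by
    unfold ee qq
    rw [Finset.sum_add_distrib, Finset.mul_sum, Finset.mul_sum]
  rw [h2] at h1
  rw [h4] at h3
  linarith

/-- MS without boundedness -/
theorem ms (J : ℕ) (hJ : 1 ≤ J) (r : ℕ → ℝ) (L : ℕ) (hr : ∀ n, 0 ≤ r n)
    (hL : ∀ n, L < n → r n = 0) :
    |∑ n ∈ Icc 1 L, Mw r J n / n - ∑ n ∈ Icc 1 L, r n / n| ≤ (J : ℝ) ^ 2 * (2 + qq r L) := by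
  have hJ0 : (0 : ℝ) < J := by exact_mod_cast hJ
  have hJ1 : (1 : ℝ) ≤ J := by exact_mod_cast hJ
  have hlin := lin_sq r L
  have key : ∀ i, i < J → |∑ n ∈ Icc 1 L, r (n + i) / n - ∑ n ∈ Icc 1 L, r n / n| ≤
      (J : ℝ) ^ 2 * (2 + qq r L) := by
    intro i hi
    have hiJ : (i : ℝ) + 1 ≤ J := by exact_mod_cast hi
    have hi0 : (0 : ℝ) ≤ i := Nat.cast_nonneg i
    -- upper bound of the difference
    have hup : ∑ n ∈ Icc 1 L, r (n + i) / (n : ℝ) ≤
        ∑ n ∈ Icc 1 L, r n / (n : ℝ) + (J : ℝ) ^ 2 * ∑ n ∈ Icc 1 L, r n / (n : ℝ) ^ 2 := by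
      have h1 := shift_le (fun n => r n / (n : ℝ)) (fun n => div_nonneg (hr n) (Nat.cast_nonneg _))
        L (fun n hn => by simp [hL n hn]) i
      have h2 := shift_le (fun n => r n / (n : ℝ) ^ 2) (fun n => div_nonneg (hr n) (by positivity))
        L (fun n hn => by simp [hL n hn]) i
      calc ∑ n ∈ Icc 1 L, r (n + i) / (n : ℝ)
          ≤ ∑ n ∈ Icc 1 L, (r (n + i) / ((n + i : ℕ) : ℝ) +
              (J : ℝ) ^ 2 * (r (n + i) / ((n + i : ℕ) : ℝ) ^ 2)) := by
            apply sum_le_sum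
            intro n hn
            have hn0 := cpos hn
            have hn1 : (1 : ℝ) ≤ n := by exact_mod_cast (mem_Icc.1 hn).1
            push_cast
            have e : r (n + i) / (n : ℝ) = r (n + i) / ((n : ℝ) + i) +
                r (n + i) * (i / (n * ((n : ℝ) + i))) := by
              field_simp
            rw [e]
            apply add_le_add le_rfl
            have e2 : (J : ℝ) ^ 2 * (r (n + i) / ((n : ℝ) + i) ^ 2) =
                r (n + i) * ((J : ℝ) ^ 2 / ((n : ℝ) + i) ^ 2) := by ring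
            rw [e2]
            apply mul_le_mul_of_nonneg_left _ (hr _)
            rw [div_le_div_iff₀ (by positivity) (by positivity)]
            have h3 : (n : ℝ) + i ≤ J * n := by nlinarith
            have h4 : (i : ℝ) * (n + i) ≤ J * (J * n) := by
              apply mul_le_mul (by linarith) h3 (by positivity) hJ0.le
            calc (i : ℝ) * (n + i) ^ 2 = (i * (n + i)) * (n + i) := by ring
              _ ≤ (J * (J * n)) * (n + i) := mul_le_mul_of_nonneg_right h4 (by positivity)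
              _ = _ := by ring
        _ = ∑ n ∈ Icc 1 L, r (n + i) / ((n + i : ℕ) : ℝ) +
              (J : ℝ) ^ 2 * ∑ n ∈ Icc 1 L, r (n + i) / ((n + i : ℕ) : ℝ) ^ 2 := by
            rw [sum_add_distrib, mul_sum]
        _ ≤ _ := add_le_add h1 (mul_le_mul_of_nonneg_left h2 (by positivity))
    -- lower bound
    have hlow : ∑ n ∈ Icc 1 L, r n / (n : ℝ) ≤ ∑ n ∈ Icc 1 L, r (n + i) / (n : ℝ) +
        (J : ℝ) ^ 2 * ∑ n ∈ Icc 1 L, r n / (n : ℝ) ^ 2 := by
      rw [← sum_filter_add_sum_filter_not (Icc 1 L) (fun n => i < n)]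
      apply add_le_add
      · -- n > i
        have e : (Icc 1 L).filter (fun n => i < n) =
            ((Icc 1 L).filter (fun k => k + i ≤ L)).image (fun k => k + i) := by
          ext n
          simp only [mem_filter, mem_Icc, mem_image]
          constructor
          · rintro ⟨⟨h1, h2⟩, h3⟩
            exact ⟨n - i, ⟨⟨by omega, by omega⟩, by omega⟩, by omega⟩
          · rintro ⟨k, ⟨⟨h1, h2⟩, h3⟩, h4⟩
            omega
        rw [e, sum_image (fun x _ y _ h => by simpa using h)]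
        calc ∑ k ∈ (Icc 1 L).filter (fun k => k + i ≤ L), r (k + i) / ((k + i : ℕ) : ℝ)
            ≤ ∑ k ∈ (Icc 1 L).filter (fun k => k + i ≤ L), r (k + i) / (k : ℝ) := by
              apply sum_le_sum
              intro k hk
              have hk0 := cpos (mem_filter.1 hk).1
              apply div_le_div_of_nonneg_left (hr _) hk0
              push_cast
              linarith
          _ ≤ ∑ n ∈ Icc 1 L, r (n + i) / (n : ℝ) := by
              apply sum_le_sum_of_subset_of_nonneg (filter_subset _ _)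
              intro n _ _
              exact div_nonneg (hr _) (Nat.cast_nonneg _)
      · calc ∑ n ∈ (Icc 1 L).filter (fun n => ¬ i < n), r n / (n : ℝ)
            ≤ ∑ n ∈ (Icc 1 L).filter (fun n => ¬ i < n), (J : ℝ) ^ 2 * (r n / (n : ℝ) ^ 2) := by
              apply sum_le_sum
              intro n hn
              rw [mem_filter] at hn
              have hn0 := cpos hn.1
              have hni : (n : ℝ) ≤ i := by exact_mod_cast (not_lt.1 hn.2)
              rw [mul_div_assoc', div_le_div_iff₀ hn0 (by positivity)]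
              have h1 : (n : ℝ) ≤ (J : ℝ) ^ 2 := by nlinarith
              have h2 : (n : ℝ) ^ 2 ≤ (J : ℝ) ^ 2 * n := by nlinarith
              calc r n * (n : ℝ) ^ 2 ≤ r n * ((J : ℝ) ^ 2 * n) :=
                    mul_le_mul_of_nonneg_left h2 (hr n)
                _ = _ := by ring
          _ ≤ ∑ n ∈ Icc 1 L, (J : ℝ) ^ 2 * (r n / (n : ℝ) ^ 2) := by
              apply sum_le_sum_of_subset_of_nonneg (filter_subset _ _)
              intro n _ _
              exact mul_nonneg (by positivity) (div_nonneg (hr _) (by positivity))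
          _ = _ := by rw [mul_sum]
    have hfin := mul_le_mul_of_nonneg_left hlin (by positivity : 0 ≤ (J : ℝ) ^ 2)
    rw [abs_le]
    constructor <;> linarith
  have e1 : ∑ n ∈ Icc 1 L, Mw r J n / n =
      (∑ i ∈ range J, ∑ n ∈ Icc 1 L, r (n + i) / n) / J := by
    unfold Mw
    rw [Finset.sum_comm, Finset.sum_div]
    refine Finset.sum_congr rfl fun n _ => ?_
    rw [← Finset.sum_div]
    ring
  have e2 : ∑ n ∈ Icc 1 L, r n / (n : ℝ) = (∑ i ∈ range J, ∑ n ∈ Icc 1 L, r n / (n : ℝ)) / J := by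
    rw [Finset.sum_const, card_range, nsmul_eq_mul]
    field_simp
  rw [e1, e2, ← sub_div, ← Finset.sum_sub_distrib, abs_div, abs_of_pos hJ0, div_le_iff₀ hJ0]
  refine (Finset.abs_sum_le_sum_abs _ _).trans ?_
  calc ∑ i ∈ range J, |∑ n ∈ Icc 1 L, r (n + i) / n - ∑ n ∈ Icc 1 L, r n / n|
      ≤ ∑ i ∈ range J, (J : ℝ) ^ 2 * (2 + qq r L) :=
        Finset.sum_le_sum fun i hi => key i (mem_range.1 hi)
    _ = (J : ℝ) ^ 2 * (2 + qq r L) * J := by
        rw [Finset.sum_const, card_range, nsmul_eq_mul]; ring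

end Pool.Agent.H38.ETU
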