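import Pool.Agent.H38.ETU.Basic
import Pool.Agent.H38.ET8.W369.ET.VA2
import Pool.Agent.H38.ET8.W418.ET.VA
import Pool.Agent.H38.ET8.W762.ET.VA1

/-!
# The upper bound of `VV`, without boundedness
-/

set_option autoImplicit false

open Finset MeasureTheory

namespace Pool.Agent.H38.ETU

open Pool.Agent.W247.ET
open Pool.Agent.W369.ET (group Dd_abs abs_le1 abs_le2 geom)

lemma lin_split (T : ℝ) (hT : 0 < T) (x : ℝ) : x ≤ T + x ^ 2 / T := by
  have : x * T ≤ T * T + x ^ 2 := by nlinarith [sq_nonneg (x - T / 2)]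
  have e : T + x ^ 2 / T = (T * T + x ^ 2) / T := by field_simp
  rw [e, le_div_iff₀ hT]
  exact this

/-- `∑ r(n)² exp (-n y)` -/
noncomputable def ex (B : Finset ℕ) (N : ℕ) (y : ℝ) : ℝ :=
  ∑ n ∈ Icc 1 (2 * N), (rep B n : ℝ) ^ 2 * Real.exp (-((n : ℝ) * y))

lemma ex_nonneg (B : Finset ℕ) (N : ℕ) (y : ℝ) : 0 ≤ ex B N y :=
  sum_nonneg fun n _ => by positivity

lemma part1 {B : Finset ℕ} {N : ℕ} (hB : B ⊆ Icc 1 N) (T : ℝ) (hT : 0 < T) {y : ℝ}
    (hy : 0 < y) :
    Dd B y ^ 2 ≤ T * ∑ n ∈ Icc 1 (2 * N), Real.exp (-((n : ℝ) * y)) + ex B N y / T := by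
  have h1 : |Dd B y| ≤ ∑ a ∈ B, Real.exp (-((a : ℝ) * y)) := by
    refine (Dd_abs B y).trans (Finset.sum_le_sum fun a _ => ?_)
    have h2 := abs_le1 (t := 2 * (a : ℝ) * y) (by positivity)
    have e : 2 * (a : ℝ) * y / 2 = (a : ℝ) * y := by ring
    rwa [e] at h2
  have h3 : Dd B y ^ 2 ≤ (∑ a ∈ B, Real.exp (-((a : ℝ) * y))) ^ 2 := by
    rw [← sq_abs]
    exact pow_le_pow_left₀ (abs_nonneg _) h1 2
  have h4 : (∑ a ∈ B, Real.exp (-((a : ℝ) * y))) ^ 2 =
      ∑ n ∈ Icc 1 (2 * N), (rep B n : ℝ) * Real.exp (-((n : ℝ) * y)) := by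
    rw [← group hB (fun n => Real.exp (-((n : ℝ) * y))), sq, Finset.sum_mul_sum]
    refine Finset.sum_congr rfl fun a _ => Finset.sum_congr rfl fun b _ => ?_
    rw [← Real.exp_add]
    congr 1
    push_cast
    ring
  rw [h4] at h3
  refine h3.trans ?_
  unfold ex
  rw [Finset.mul_sum, Finset.sum_div, ← Finset.sum_add_distrib]
  refine Finset.sum_le_sum fun n _ => ?_
  have h5 := mul_le_mul_of_nonneg_right (lin_split T hT (rep B n : ℝ))
    (Real.exp_pos (-((n : ℝ) * y))).le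
  refine h5.trans (le_of_eq ?_)
  ring

lemma part2 {B : Finset ℕ} {N : ℕ} (hB : B ⊆ Icc 1 N) {y : ℝ}
    (hy : 0 < y) : Dd B y ^ 2 ≤ 1 / 4 * ∑ n ∈ Icc 1 (2 * N), (rep B n : ℝ) := by
  have h1 : |Dd B y| ≤ (B.card : ℝ) / 2 := by
    refine (Dd_abs B y).trans ?_
    have h2 : ∑ a ∈ B, |1 / 2 - 2 * (a : ℝ) * y| * Real.exp (-(2 * (a : ℝ) * y)) ≤
        ∑ a ∈ B, (1 / 2 : ℝ) :=
      Finset.sum_le_sum fun a _ => abs_le2 (t := 2 * (a : ℝ) * y) (by positivity)
    refine h2.trans (le_of_eq ?_)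
    rw [Finset.sum_const, nsmul_eq_mul]
    ring
  have h3 : Dd B y ^ 2 ≤ ((B.card : ℝ) / 2) ^ 2 := by
    rw [← sq_abs]
    exact pow_le_pow_left₀ (abs_nonneg _) h1 2
  have h4 : (B.card : ℝ) ^ 2 = ∑ n ∈ Icc 1 (2 * N), (rep B n : ℝ) := by
    have h5 := group hB (fun _ => (1 : ℝ))
    simp only [Finset.sum_const, nsmul_eq_mul, mul_one] at h5
    rw [sq, h5]
  rw [← h4]
  nlinarith

lemma part3 {B : Finset ℕ} {N : ℕ} (hB : B ⊆ Icc 1 N) (T : ℝ) (hT : 0 < T) {y : ℝ}
    (hy : 0 < y) (h2N : 2 / (N : ℝ) ≤ y) (hy1 : y ≤ 1 / 100) :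
    Dd B y ^ 2 ≤ 3 / 5 * (y * Hh B N y ^ 2) +
      20 * T * ∑ n ∈ (Icc 1 N).filter (fun n => rep B n = 0), Real.exp (-(2 * (n : ℝ) * y)) +
      ex B N y / T := by
  have hNy : 2 ≤ (N : ℝ) * y ∨ N = 0 := by
    rcases Nat.eq_zero_or_pos N with h | h
    · exact Or.inr h
    · left
      have : (0 : ℝ) < N := by exact_mod_cast h
      rw [div_le_iff₀ this] at h2N
      linarith
  set Z := (Icc 1 N).filter (fun n => rep B n = 0) with hZ
  set z : ℝ := ∑ n ∈ Z, Real.exp (-(2 * (n : ℝ) * y)) with hz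
  have hz0 : 0 ≤ z := Finset.sum_nonneg fun n _ => (Real.exp_pos _).le
  have hex0 : 0 ≤ ex B N y / T := div_nonneg (ex_nonneg B N y) hT.le
  rcases Nat.eq_zero_or_pos N with hN0 | hN0
  · -- trivial case
    have hB0 : B = ∅ := by
      rw [hN0] at hB
      exact Finset.subset_empty.1 hB
    have hD : Dd B y = 0 := by
      rw [hB0]; unfold Dd; simp
    rw [hD, zero_pow two_ne_zero]
    positivity
  have hNy' : 2 ≤ (N : ℝ) * y := hNy.resolve_right (by omega)
  by_cases hcase : 1 / (20 * y) < z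
  · have h1 := part1 hB T hT hy
    have h2 : ∑ n ∈ Icc 1 (2 * N), Real.exp (-((n : ℝ) * y)) ≤ 1 / y := by
      have e : ∀ n : ℕ, Real.exp (-((n : ℝ) * y)) = Real.exp (-y) ^ n := by
        intro n
        rw [← Real.exp_nat_mul]
        congr 1
        ring
      simp only [e]
      have hg := geom (Real.exp (-y)) (2 * N)
      have hq : 0 < Real.exp (-y) := Real.exp_pos _
      have hq1 : y * Real.exp (-y) ≤ 1 - Real.exp (-y) := by
        have h3 := Real.add_one_le_exp y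
        have h4 : Real.exp (-y) * Real.exp y = 1 := by
          rw [← Real.exp_add, neg_add_cancel, Real.exp_zero]
        nlinarith
      have hq2 : 0 < 1 - Real.exp (-y) := lt_of_lt_of_le (by positivity) hq1
      have hq3 : 0 < Real.exp (-y) ^ (2 * N + 1) := by positivity
      rw [le_div_iff₀ hy]
      have h5 : (1 - Real.exp (-y)) * ((∑ n ∈ Icc 1 (2 * N), Real.exp (-y) ^ n) * y) ≤
          (1 - Real.exp (-y)) * 1 := by
        rw [← mul_assoc, hg]
        nlinarith
      exact le_of_mul_le_mul_left h5 hq2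
    have h3 : Dd B y ^ 2 ≤ T * (1 / y) + ex B N y / T :=
      h1.trans (add_le_add (mul_le_mul_of_nonneg_left h2 hT.le) le_rfl)
    have h4 : (1 / y) ≤ 20 * z := by
      have : 1 / (20 * y) = 1 / y / 20 := by
        rw [div_div, mul_comm]
      rw [this] at hcase
      linarith
    have h5 : T * (1 / y) ≤ T * (20 * z) :=
      mul_le_mul_of_nonneg_left h4 hT.le
    have h6 : 0 ≤ 3 / 5 * (y * Hh B N y ^ 2) := by positivity
    linarith
  · push Not at hcase
    have hK0 : 0 ≤ 20 * T * z := by positivity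
    set φ : ℝ := ∑ a ∈ B, Real.exp (-(2 * (a : ℝ) * y)) with hφ
    have hPsi : φ ^ 2 = ∑ n ∈ Icc 1 (2 * N), (rep B n : ℝ) * Real.exp (-(2 * (n : ℝ) * y)) := by
      rw [← group hB (fun n => Real.exp (-(2 * (n : ℝ) * y))), sq, hφ, Finset.sum_mul_sum]
      refine Finset.sum_congr rfl fun a _ => Finset.sum_congr rfl fun b _ => ?_
      rw [← Real.exp_add]
      congr 1
      push_cast
      ring
    have hHh : 2 * φ * Dd B y = Hh B N y := by
      unfold Hh
      rw [← group hB (fun n => (1 - 2 * (n : ℝ) * y) * Real.exp (-(2 * (n : ℝ) * y)))]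
      have e1 : 2 * φ * Dd B y = Dd B y * φ + φ * Dd B y := by ring
      rw [e1, hφ, Dd, Finset.sum_mul_sum, Finset.sum_mul_sum, ← Finset.sum_add_distrib]
      refine Finset.sum_congr rfl fun a _ => ?_
      rw [← Finset.sum_add_distrib]
      refine Finset.sum_congr rfl fun b _ => ?_
      have e2 : Real.exp (-(2 * ((a + b : ℕ) : ℝ) * y)) =
          Real.exp (-(2 * (a : ℝ) * y)) * Real.exp (-(2 * (b : ℝ) * y)) := by
        rw [← Real.exp_add]
        congr 1
        push_cast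
        ring
      rw [e2]
      push_cast
      ring
    have hsum : 47 / 100 ≤ y * ∑ n ∈ Icc 1 N, Real.exp (-(2 * (n : ℝ) * y)) := by
      have e : ∀ n : ℕ, Real.exp (-(2 * (n : ℝ) * y)) = Real.exp (-(2 * y)) ^ n := by
        intro n
        rw [← Real.exp_nat_mul]
        congr 1
        ring
      simp only [e]
      have hg := geom (Real.exp (-(2 * y))) N
      set q := Real.exp (-(2 * y)) with hq
      have hq0 : 0 < q := Real.exp_pos _
      have hq1 : 1 - q ≤ 2 * y := by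
        have := Real.add_one_le_exp (-(2 * y))
        linarith
      have hq2 : 98 / 100 ≤ q := by
        have := Real.add_one_le_exp (-(2 * y))
        linarith
      have hq3 : q ^ N ≤ 2 / 100 := by
        have e3 : q ^ N = Real.exp (-(2 * ((N : ℝ) * y))) := by
          rw [hq, ← Real.exp_nat_mul]
          congr 1
          ring
        have h4 : q ^ N ≤ Real.exp (-4) := by
          rw [e3]
          exact Real.exp_le_exp.2 (by linarith)
        have h5 : Real.exp (-4) ≤ 2 / 100 := by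
          rw [Real.exp_neg]
          have h6 : (50 : ℝ) ≤ Real.exp 4 := by
            have h7 := Real.exp_one_gt_d9
            have h8 : Real.exp 4 = Real.exp 1 ^ 4 := by
              rw [← Real.exp_nat_mul]
              norm_num
            rw [h8]
            have h9 : (2.7 : ℝ) ^ 4 ≤ Real.exp 1 ^ 4 :=
              pow_le_pow_left₀ (by norm_num) (by linarith) 4
            refine le_trans ?_ h9
            norm_num
          rw [inv_le_comm₀ (Real.exp_pos _) (by norm_num)]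
          refine le_trans ?_ h6
          norm_num
        exact h4.trans h5
      have hS0 : 0 ≤ ∑ n ∈ Icc 1 N, q ^ n := Finset.sum_nonneg fun n _ => by positivity
      have h10 : q * (1 - q ^ N) ≤ 2 * y * ∑ n ∈ Icc 1 N, q ^ n := by
        have : q * (1 - q ^ N) = (1 - q) * ∑ n ∈ Icc 1 N, q ^ n := by
          rw [hg]; ring
        rw [this]
        exact mul_le_mul_of_nonneg_right hq1 hS0
      have h11 : 98 / 100 * (98 / 100) ≤ q * (1 - q ^ N) := by
        have h12 : (98 : ℝ) / 100 ≤ 1 - q ^ N := by linarith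
        exact mul_le_mul hq2 h12 (by norm_num) hq0.le
      linarith
    have hPsi2 : (∑ n ∈ Icc 1 N, Real.exp (-(2 * (n : ℝ) * y))) - z ≤ φ ^ 2 := by
      have h1 : ∑ n ∈ Icc 1 N, Real.exp (-(2 * (n : ℝ) * y)) =
          z + ∑ n ∈ (Icc 1 N).filter (fun n => ¬ rep B n = 0),
            Real.exp (-(2 * (n : ℝ) * y)) := by
        rw [hz, hZ]
        exact (Finset.sum_filter_add_sum_filter_not _ _ _).symm
      have h2 : ∑ n ∈ (Icc 1 N).filter (fun n => ¬ rep B n = 0),
            Real.exp (-(2 * (n : ℝ) * y)) ≤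
          ∑ n ∈ (Icc 1 N).filter (fun n => ¬ rep B n = 0),
            (rep B n : ℝ) * Real.exp (-(2 * (n : ℝ) * y)) := by
        refine Finset.sum_le_sum fun n hn => ?_
        have h3 : 1 ≤ rep B n := Nat.one_le_iff_ne_zero.2 (Finset.mem_filter.1 hn).2
        have h4 : (1 : ℝ) ≤ rep B n := by exact_mod_cast h3
        have h5 := Real.exp_pos (-(2 * (n : ℝ) * y))
        nlinarith
      have h3 : ∑ n ∈ (Icc 1 N).filter (fun n => ¬ rep B n = 0),
            (rep B n : ℝ) * Real.exp (-(2 * (n : ℝ) * y)) ≤ φ ^ 2 := by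
        rw [hPsi]
        refine Finset.sum_le_sum_of_subset_of_nonneg ?_ fun n _ _ => by positivity
        intro n hn
        have := Finset.mem_Icc.1 (Finset.mem_filter.1 hn).1
        exact Finset.mem_Icc.2 ⟨this.1, by omega⟩
      rw [h1]
      linarith
    have hyz : y * z ≤ 1 / 20 := by
      have h1 : y * z ≤ y * (1 / (20 * y)) := mul_le_mul_of_nonneg_left hcase hy.le
      have h2 : y * (1 / (20 * y)) = 1 / 20 := by field_simp
      linarith
    have hfin : 5 / 12 ≤ y * φ ^ 2 := by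
      have h1 : y * ((∑ n ∈ Icc 1 N, Real.exp (-(2 * (n : ℝ) * y))) - z) ≤ y * φ ^ 2 :=
        mul_le_mul_of_nonneg_left hPsi2 hy.le
      rw [mul_sub] at h1
      linarith
    rw [← hHh]
    have h1 : 3 / 5 * (y * (2 * φ * Dd B y) ^ 2) = 12 / 5 * (y * φ ^ 2) * Dd B y ^ 2 := by ring
    rw [h1]
    have h2 := sq_nonneg (Dd B y)
    nlinarith

theorem va (h1 : VA1_stmt) (T : ℝ) (hT : 0 < T) (B : Finset ℕ) (N : ℕ) (hB : B ⊆ Icc 1 N) :
    VV B ≤ 3 / 5 * ∑ n ∈ Icc 1 (2 * N), ∑ m ∈ Icc 1 (2 * N), (rep B n : ℝ) * rep B m * kap n m +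
      10 * T * ∑ n ∈ (Icc 1 N).filter (fun n => rep B n = 0), 1 / (n : ℝ) + 101 * T +
      2 * ee (fun n => (rep B n : ℝ)) (2 * N) / T := by
  set E : ℝ := ee (fun n => (rep B n : ℝ)) (2 * N) with hE
  have hE0 : 0 ≤ E := ee_nonneg _ _
  rcases Nat.eq_zero_or_pos N with rfl | hN
  · have hB0 : B = ∅ := by
      rw [← Finset.subset_empty]
      simpa using hB
    subst hB0
    have hVV : VV ∅ = 0 := by simp [VV]
    rw [hVV]
    have : 0 ≤ 2 * E / T := by positivity
    simp only [mul_zero]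
    rw [show Icc 1 0 = (∅ : Finset ℕ) from rfl]
    simp only [Finset.sum_empty, Finset.filter_empty, mul_zero, zero_add]
    positivity
  have hN' : (0 : ℝ) < N := by exact_mod_cast hN
  obtain ⟨i1, e1, i2, e2⟩ := h1 B N hB
  set Z := (Icc 1 N).filter (fun n => rep B n = 0) with hZ
  set m4 : ℝ := 1 / 4 * ∑ n ∈ Icc 1 (2 * N), (rep B n : ℝ) with hm4
  have hm40 : 0 ≤ m4 := by
    rw [hm4]
    exact mul_nonneg (by norm_num) (sum_nonneg fun n _ => Nat.cast_nonneg _)
  set f1 : ℝ → ℝ := fun y => 3 / 5 * (y * Hh B N y ^ 2) with hf1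
  set f2 : ℝ → ℝ := fun y => 20 * T * ∑ n ∈ Z, Real.exp (-(2 * (n : ℝ) * y)) with hf2
  set f3 : ℝ → ℝ := (Set.Ioc (0 : ℝ) (2 / N)).indicator (fun _ => m4) with hf3
  set f4 : ℝ → ℝ := (Set.Ioi (1 / 100 : ℝ)).indicator
    (fun y => T * ∑ n ∈ Icc 1 (2 * N), Real.exp (-((n : ℝ) * y))) with hf4
  set f5 : ℝ → ℝ := fun y => ex B N y / T with hf5
  have hexp : ∀ (a c : ℝ), 0 < a → IntegrableOn (fun y => Real.exp (-(a * y))) (Set.Ioi c) ∧
      ∫ y in Set.Ioi c, Real.exp (-(a * y)) = Real.exp (-(a * c)) / a := by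
    intro a c ha
    have e : ∀ y : ℝ, -(a * y) = (-a) * y := fun y => by ring
    simp only [e]
    refine ⟨integrableOn_exp_mul_Ioi (by linarith) c, ?_⟩
    rw [integral_exp_mul_Ioi (by linarith) c]
    rw [div_neg, neg_div, neg_neg]
  have hpos : ∀ n ∈ Icc 1 (2 * N), (0 : ℝ) < n := fun n hn => by
    have := (mem_Icc.1 hn).1
    exact_mod_cast this
  have hposZ : ∀ n ∈ Z, (0 : ℝ) < 2 * (n : ℝ) := fun n hn => by
    have := (mem_Icc.1 (mem_filter.1 hn).1).1
    have h : (0 : ℝ) < n := by exact_mod_cast this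
    linarith
  have I1 : IntegrableOn f1 (Set.Ioi 0) := i2.const_mul _
  have I2 : IntegrableOn f2 (Set.Ioi 0) :=
    (integrable_finsetSum _ fun n hn => (hexp _ 0 (hposZ n hn)).1).const_mul _
  have I3 : IntegrableOn f3 (Set.Ioi 0) := by
    refine ((integrable_indicator_iff measurableSet_Ioc).2 ?_).integrableOn
    exact integrableOn_const (by simp)
  have I4' : IntegrableOn (fun y => T * ∑ n ∈ Icc 1 (2 * N), Real.exp (-((n : ℝ) * y)))
      (Set.Ioi (1 / 100)) :=
    (integrable_finsetSum _ fun n hn => (hexp _ (1 / 100) (hpos n hn)).1).const_mul _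
  have I4 : IntegrableOn f4 (Set.Ioi 0) :=
    ((integrable_indicator_iff measurableSet_Ioi).2 I4').integrableOn
  have I5 : IntegrableOn f5 (Set.Ioi 0) := by
    have : IntegrableOn (fun y => ∑ n ∈ Icc 1 (2 * N),
        (rep B n : ℝ) ^ 2 * Real.exp (-((n : ℝ) * y))) (Set.Ioi 0) :=
      integrable_finsetSum _ fun n hn => (hexp _ 0 (hpos n hn)).1.const_mul _
    exact this.div_const T
  have hsum0 : ∀ (S : Finset ℕ) (g : ℕ → ℝ), 0 ≤ ∑ n ∈ S, Real.exp (g n) := fun S g =>
    Finset.sum_nonneg fun n _ => (Real.exp_pos _).le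
  have hle : ∀ y ∈ Set.Ioi (0 : ℝ), Dd B y ^ 2 ≤ f1 y + f2 y + f3 y + f4 y + f5 y := by
    intro y hy
    have hy0 : 0 < y := hy
    have g1 : 0 ≤ f1 y := by
      simp only [hf1]; positivity
    have g2 : 0 ≤ f2 y := by
      simp only [hf2]
      exact mul_nonneg (by positivity) (hsum0 _ _)
    have g3 : 0 ≤ f3 y := Set.indicator_nonneg (fun _ _ => hm40) y
    have g4 : 0 ≤ f4 y := Set.indicator_nonneg
      (fun _ _ => mul_nonneg hT.le (hsum0 _ _)) y
    have g5 : 0 ≤ f5 y := div_nonneg (ex_nonneg B N y) hT.le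
    by_cases c1 : y < 2 / N
    · have h3 : f3 y = m4 := by
        rw [hf3, Set.indicator_of_mem]
        exact ⟨hy0, c1.le⟩
      have h4 := part2 hB hy0
      linarith
    · by_cases c2 : 1 / 100 < y
      · have h3 : f4 y = T * ∑ n ∈ Icc 1 (2 * N), Real.exp (-((n : ℝ) * y)) := by
          rw [hf4, Set.indicator_of_mem]
          exact c2
        have h4 := part1 hB T hT hy0
        have h5 : f5 y = ex B N y / T := rfl
        linarith
      · have h3 := part3 hB T hT hy0 (not_lt.1 c1) (not_lt.1 c2)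
        have e : f1 y + f2 y + f5 y = 3 / 5 * (y * Hh B N y ^ 2) +
          20 * T * ∑ n ∈ Z, Real.exp (-(2 * (n : ℝ) * y)) + ex B N y / T := rfl
        linarith
  have hmono := setIntegral_mono_on i1 ((((I1.add I2).add I3).add I4).add I5)
    measurableSet_Ioi hle
  rw [e1] at hmono
  refine hmono.trans ?_
  have s1 : ∫ y in Set.Ioi (0 : ℝ), f1 y = 3 / 5 *
      ∑ n ∈ Icc 1 (2 * N), ∑ m ∈ Icc 1 (2 * N), (rep B n : ℝ) * rep B m * kap n m := by
    simp only [hf1]
    rw [integral_const_mul, e2]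
  have s2 : ∫ y in Set.Ioi (0 : ℝ), f2 y = 10 * T * ∑ n ∈ Z, 1 / (n : ℝ) := by
    simp only [hf2]
    rw [integral_const_mul, integral_finsetSum _ fun n hn => (hexp _ 0 (hposZ n hn)).1]
    rw [Finset.sum_congr rfl fun n hn => (hexp _ 0 (hposZ n hn)).2]
    rw [Finset.mul_sum, Finset.mul_sum]
    refine Finset.sum_congr rfl fun n hn => ?_
    have := hposZ n hn
    have hn0 : (n : ℝ) ≠ 0 := by
      intro h0; rw [h0] at this; simp at this
    simp only [mul_zero, neg_zero, Real.exp_zero]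
    field_simp
    ring
  have s3 : ∫ y in Set.Ioi (0 : ℝ), f3 y ≤ T + E / T := by
    rw [hf3, setIntegral_indicator measurableSet_Ioc]
    have e : Set.Ioi (0 : ℝ) ∩ Set.Ioc 0 (2 / (N : ℝ)) = Set.Ioc 0 (2 / (N : ℝ)) := by
      ext y; simp only [Set.mem_inter_iff, Set.mem_Ioi, Set.mem_Ioc]; tauto
    rw [e, setIntegral_const]
    simp only [Real.volume_real_Ioc, sub_zero, smul_eq_mul]
    rw [max_eq_left (by positivity)]
    have h := mean_le (fun n => (rep B n : ℝ)) (2 * N) T hT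
    have e3 : 2 / (N : ℝ) * m4 = (∑ n ∈ Icc 1 (2 * N), (rep B n : ℝ)) / ((2 * N : ℕ) : ℝ) := by
      rw [hm4]
      push_cast
      field_simp
      ring
    rw [e3]
    exact h
  have s4 : ∫ y in Set.Ioi (0 : ℝ), f4 y ≤ 100 * T := by
    rw [hf4, setIntegral_indicator measurableSet_Ioi]
    have e : Set.Ioi (0 : ℝ) ∩ Set.Ioi (1 / 100) = Set.Ioi (1 / 100) := by
      ext y; simp only [Set.mem_inter_iff, Set.mem_Ioi]
      constructor
      · exact fun h => h.2
      · intro h; exact ⟨by linarith, h⟩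
    rw [e, integral_const_mul, integral_finsetSum _ fun n hn => (hexp _ (1 / 100) (hpos n hn)).1]
    rw [Finset.sum_congr rfl fun n hn => (hexp _ (1 / 100) (hpos n hn)).2]
    rw [mul_comm (100 : ℝ)]
    refine mul_le_mul_of_nonneg_left ((Finset.sum_le_sum fun n hn => ?_).trans
      (Pool.Agent.W418.ET.VA.geo (2 * N))) (by positivity)
    have hn1 : (1 : ℝ) ≤ n := by
      have := (mem_Icc.1 hn).1
      exact_mod_cast this
    rw [mul_one_div]
    exact div_le_self (Real.exp_pos _).le hn1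
  have s5 : ∫ y in Set.Ioi (0 : ℝ), f5 y = E / T := by
    simp only [hf5, ex]
    rw [integral_div, integral_finsetSum _ fun n hn => (hexp _ 0 (hpos n hn)).1.const_mul _]
    congr 1
    rw [hE]
    unfold ee
    refine Finset.sum_congr rfl fun n hn => ?_
    rw [integral_const_mul, (hexp _ 0 (hpos n hn)).2]
    simp only [mul_zero, neg_zero, Real.exp_zero]
    ring
  have hadd : ∫ y in Set.Ioi (0 : ℝ), (f1 y + f2 y + f3 y + f4 y + f5 y) =
      (∫ y in Set.Ioi (0 : ℝ), f1 y) + (∫ y in Set.Ioi (0 : ℝ), f2 y) +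
        (∫ y in Set.Ioi (0 : ℝ), f3 y) + (∫ y in Set.Ioi (0 : ℝ), f4 y) +
        ∫ y in Set.Ioi (0 : ℝ), f5 y := by
    have a1 := integral_add I1 I2
    have a2 := integral_add (I1.add I2) I3
    have a3 := integral_add ((I1.add I2).add I3) I4
    have a4 := integral_add (((I1.add I2).add I3).add I4) I5
    simp only [Pi.add_apply] at a1 a2 a3 a4
    rw [a4, a3, a2, a1]
  calc _ = ∫ y in Set.Ioi (0 : ℝ), (f1 y + f2 y + f3 y + f4 y + f5 y) := rfl
    _ ≤ _ := by
      rw [hadd, s1, s2, s5]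
      have e5 : 2 * E / T = E / T + E / T := by ring
      rw [e5]
      linarith

end Pool.Agent.H38.ETU
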