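import Pool.Agent.H38.ETU.Up
import Pool.Agent.H38.ETU.VA
import Pool.Agent.H38.ETU.Ker
import Pool.Agent.H38.ETU.Cut
import Pool.Agent.H38.ET8.W247.ET.All

/-!
# The variance law for all sets of natural numbers
-/

set_option autoImplicit false

open Finset MeasureTheory

namespace Pool.Agent.H38.ETU

open Pool.Agent.W247.ET

lemma asm_all : ASM_stmt := Pool.Agent.W119.ET.main Pool.Agent.W19.ET.main
  Pool.Agent.W641.ET.main Pool.Agent.W723.ET.main

lemma ker_all : KER_stmt := Pool.Agent.W975.ET.main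

lemma rs_all : RS_stmt := Pool.Agent.W654.ET.RS.main ker_all

lemma va1_all : VA1_stmt := Pool.Agent.W762.ET.VA1.main

lemma low_all : LOW_stmt := Pool.Agent.W930.ET.LOW.main

lemma ene_all : ENE_stmt := Pool.Agent.W73.ET.ENE.main

lemma ee_sub (W : ℕ → ℝ) (lam : ℝ) (L : ℕ) : ee (fun n => W n - lam) L =
    ee W L - 2 * lam * ∑ n ∈ Icc 1 L, W n / n + lam ^ 2 * ∑ n ∈ Icc 1 L, 1 / (n : ℝ) := by
  unfold ee
  rw [mul_sum, mul_sum, ← sum_sub_distrib, ← sum_add_distrib]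
  refine sum_congr rfl fun n hn => ?_
  have := cpos hn
  field_simp
  ring

lemma qq_sub (W : ℕ → ℝ) (lam : ℝ) (L : ℕ) : qq (fun n => W n - lam) L ≤
    2 * qq W L + 4 * lam ^ 2 := by
  have h1 : qq (fun n => W n - lam) L ≤
      ∑ n ∈ Icc 1 L, (2 * (W n ^ 2 / (n : ℝ) ^ 2) + 2 * lam ^ 2 * (1 / (n : ℝ) ^ 2)) := by
    unfold qq
    apply sum_le_sum
    intro n hn
    have hn0 := cpos hn
    have e : 2 * (W n ^ 2 / (n : ℝ) ^ 2) + 2 * lam ^ 2 * (1 / (n : ℝ) ^ 2) =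
        (2 * W n ^ 2 + 2 * lam ^ 2) / (n : ℝ) ^ 2 := by ring
    rw [e]
    apply div_le_div_of_nonneg_right _ (by positivity)
    nlinarith [sq_nonneg (W n + lam)]
  rw [sum_add_distrib, ← mul_sum, ← mul_sum] at h1
  have h2 := mul_le_mul_of_nonneg_left (sum_inv_sq L) (by positivity : 0 ≤ 2 * lam ^ 2)
  have h3 : ∑ n ∈ Icc 1 L, W n ^ 2 / (n : ℝ) ^ 2 = qq W L := rfl
  rw [h3] at h1
  linarith

/-- the first form: the inequality for one finite set, all errors small with respect to the energy -/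
theorem finite_form (lam : ℝ) (hlam : 0 < lam) (κ : ℝ) (hκ : 0 < κ) :
    ∃ T : ℝ, 0 < T ∧ ∃ C : ℝ, ∀ (B : Finset ℕ) (N : ℕ), B ⊆ Icc 1 N → 1 ≤ N →
      (1369 + 2520 * lam) * ∑ n ∈ Icc 1 (2 * N), (rep B n : ℝ) / n ≤
        1260 * ee (fun n => (rep B n : ℝ)) (2 * N) +
        1260 * lam ^ 2 * ∑ n ∈ Icc 1 (2 * N), 1 / (n : ℝ) +
        κ * ee (fun n => (rep B n : ℝ)) (2 * N) +
        T * ∑ n ∈ (Icc 1 N).filter (fun n => rep B n = 0), 1 / (n : ℝ) + C := by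
  obtain ⟨C0, hC0, hE⟩ := ene_all
  -- `κ' = κ / 4`
  set k4 : ℝ := κ / 4 with hk4
  have hk40 : 0 < k4 := by positivity
  obtain ⟨J, hJ⟩ := exists_nat_ge ((256 * C0 / k4) ^ 2 + 1)
  have hJ1' : (1 : ℝ) ≤ J := by nlinarith [sq_nonneg (256 * C0 / k4)]
  have hJ1 : 1 ≤ J := by exact_mod_cast hJ1'
  have hJ0 : (0 : ℝ) < J := by linarith
  have hsJ : 256 * C0 / k4 ≤ √(J : ℝ) := by
    apply Real.le_sqrt_of_sq_le
    linarith
  have hsJ0 : 0 < √(J : ℝ) := Real.sqrt_pos.2 hJ0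
  have hsmall : 128 * (2 / √(J : ℝ) * C0) ≤ k4 := by
    rw [div_le_iff₀ hk40] at hsJ
    have : 128 * (2 / √(J : ℝ) * C0) = 256 * C0 / √(J : ℝ) := by ring
    rw [this, div_le_iff₀ hsJ0]
    linarith
  set T : ℝ := 5920 / k4 with hT
  have hT0 : 0 < T := by positivity
  set T1 : ℝ := 888 * lam / k4 with hT1
  have hT10 : 0 < T1 := by positivity
  -- the coefficient of `q`
  set cq : ℝ := 1776 * (3 * (J : ℝ) ^ 2 + lam * (J : ℝ) ^ 2 + lam / 2 * (J : ℝ) ^ 3 / T1 +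
    6 * (J : ℝ) ^ 3) + 2520 * lam * (J : ℝ) ^ 2 + 128 * (315 / 16 * (J : ℝ) ^ 3 + 750 * J) with hcq
  have hcq0 : 0 < cq := by positivity
  obtain ⟨m, hm⟩ := exists_nat_ge (cq / k4 + 1)
  have hm1' : (1 : ℝ) ≤ m := by
    have : 0 < cq / k4 := by positivity
    linarith
  have hm1 : 1 ≤ m := by exact_mod_cast hm1'
  have hm0 : (0 : ℝ) < m := by linarith
  have hcm : cq / m ≤ k4 := by
    have h1 : cq / k4 ≤ m := by linarith
    rw [div_le_iff₀ hk40] at h1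
    rw [div_le_iff₀ hm0]
    linarith
  refine ⟨29600 * T, by positivity, 1776 * (6 * lam ^ 2 + 2 * lam + lam / 2 * T1 +
    5 / 4 * lam ^ 2) + 2520 * lam * (J : ℝ) ^ 2 * 2 + 2960 * (101 * T) + cq * m, ?_⟩
  intro B N hB hN
  set R : ℕ → ℝ := fun n => (rep B n : ℝ) with hR
  have hR0 : ∀ n, 0 ≤ R n := fun n => Nat.cast_nonneg _
  have h0B : 0 ∉ B := fun h => by
    have := (mem_Icc.1 (hB h)).1
    omega
  have hRL : ∀ n, 2 * N < n → R n = 0 := by
    intro n hn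
    show (rep B n : ℝ) = 0
    rw [Pool.Agent.W654.ET.RS.rep_zero B N n hB hn]
    simp
  set L := 2 * N with hL
  have hL1 : 1 ≤ L := by omega
  set W : ℕ → ℝ := Mw R J with hW
  have hW0 : ∀ n, 0 ≤ W n := fun n => Mw_nonneg hR0 J n
  set s1 : ℝ := ee R L with hs1
  set s2 : ℝ := ee W L with hs2
  set s3 : ℝ := ∑ n ∈ Icc 1 L, R n / n with hs3
  set s4 : ℝ := ∑ n ∈ Icc 1 L, W n / n with hs4
  set s0 : ℝ := ∑ n ∈ Icc 1 L, 1 / (n : ℝ) with hs0
  set q : ℝ := qq R L with hq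
  set qW : ℝ := qq W L with hqW
  set Z : ℝ := ∑ n ∈ (Icc 1 N).filter (fun n => rep B n = 0), 1 / (n : ℝ) with hZ
  have hs1nn : 0 ≤ s1 := ee_nonneg _ _
  have hqnn : 0 ≤ q := qq_nonneg _ _
  -- (1)
  obtain ⟨-, h1⟩ := asm_all B N J hB hJ1
  have h2 := low_all B N hB
  have h2' : ∑ p ∈ B ×ˢ B, 1 / ((p.1 : ℝ) + p.2) = s3 := by
    have := sum_pairs B N hB (fun n => 1 / (n : ℝ))
    push_cast at this
    rw [this, hs3]
    refine sum_congr rfl fun n _ => ?_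
    simp only [hR]
    ring
  rw [h2'] at h2
  have h3 := upx ker_all rs_all J hJ1 B N hB
  rw [← hR, ← hL, ← hW, ← hs1, ← hs2, ← hq] at h3
  -- (2)
  have h4 : QS P2 B 0 0 ≤ C0 * s1 := hE B N hB
  have h4' : 128 * (2 / √(J : ℝ) * QS P2 B 0 0) ≤ k4 * s1 := by
    calc 128 * (2 / √(J : ℝ) * QS P2 B 0 0) ≤ 128 * (2 / √(J : ℝ) * (C0 * s1)) :=
          mul_le_mul_of_nonneg_left (mul_le_mul_of_nonneg_left h4 (by positivity)) (by norm_num)
      _ = 128 * (2 / √(J : ℝ) * C0) * s1 := by ring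
      _ ≤ k4 * s1 := mul_le_mul_of_nonneg_right hsmall hs1nn
  -- (3)
  have h5 := va va1_all T hT0 B N hB
  rw [← hR, ← hL, ← hs1, ← hZ] at h5
  have h5' : 2960 * (2 * s1 / T) = k4 * s1 := by
    rw [hT]
    field_simp
    ring
  -- (4)
  have h6 := vb J hJ1 R L hL1 hRL
  rw [← hW, ← hq] at h6
  have h6' : ∑ n ∈ Icc 1 L, ∑ m ∈ Icc 1 L, (rep B n : ℝ) * rep B m * kap n m =
      ∑ n ∈ Icc 1 L, ∑ m ∈ Icc 1 L, R n * R m * kap n m := rfl
  rw [h6'] at h5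
  -- (5)
  have h7 := vc lam hlam.le T1 hT10 W L hW0
  rw [← hqW, ← hs2] at h7
  -- (6)
  have h8 := vd (fun n => W n - lam) L
  have h8' : ee (fun n => W n - lam) L = s2 - 2 * lam * s4 + lam ^ 2 * s0 := ee_sub W lam L
  have h8'' : qq (fun n => W n - lam) L ≤ 2 * qW + 4 * lam ^ 2 := qq_sub W lam L
  rw [h8'] at h8
  -- (7)
  have h9 : qW ≤ (J : ℝ) ^ 2 * q := qq_Mw R L hRL J hJ1
  have h10 : s2 ≤ s1 + (J : ℝ) ^ 3 * q := ee_Mw R L hRL J hJ1
  -- (8)
  have h11 := abs_le.1 (ms J hJ1 R L hR0 hRL)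
  have h11' : s3 ≤ s4 + (J : ℝ) ^ 2 * (2 + q) := by
    have := h11.1
    linarith
  -- (12)
  have h12 : q ≤ m + s1 / m := qq_rep B h0B L m hm1
  have h12' : cq * q ≤ cq * m + k4 * s1 := by
    calc cq * q ≤ cq * (m + s1 / m) := mul_le_mul_of_nonneg_left h12 hcq0.le
      _ = cq * m + cq / m * s1 := by ring
      _ ≤ cq * m + k4 * s1 := by
          have := mul_le_mul_of_nonneg_right hcm hs1nn
          linarith
  -- (14)
  have h14 : 0 ≤ s2 - 2 * lam * s4 + lam ^ 2 * s0 := by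
    rw [← h8']
    exact ee_nonneg _ _
  -- products
  have p1 : 2520 * lam * s3 ≤ 2520 * lam * s4 + 2520 * lam * (J : ℝ) ^ 2 * (2 + q) := by
    have := mul_le_mul_of_nonneg_left h11' (by positivity : 0 ≤ 2520 * lam)
    linarith
  have p2 : lam * qW ≤ lam * ((J : ℝ) ^ 2 * q) := mul_le_mul_of_nonneg_left h9 hlam.le
  have p3 : lam / 2 * (s2 / T1) ≤ lam / 2 * (s1 / T1) + lam / 2 * (J : ℝ) ^ 3 / T1 * q := by
    have h15 : s2 / T1 ≤ (s1 + (J : ℝ) ^ 3 * q) / T1 := div_le_div_of_nonneg_right h10 hT10.le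
    calc lam / 2 * (s2 / T1) ≤ lam / 2 * ((s1 + (J : ℝ) ^ 3 * q) / T1) :=
          mul_le_mul_of_nonneg_left h15 (by positivity)
      _ = _ := by ring
  have p4 : 1776 * (lam / 2 * (s1 / T1)) = k4 * s1 := by
    rw [hT1]
    field_simp
    ring
  have hVV : 2960 * VV B ≤ 888 * (s2 - 2 * lam * s4 + lam ^ 2 * s0) +
      1776 * (3 / 2 * (2 * ((J : ℝ) ^ 2 * q) + 4 * lam ^ 2)) +
      1776 * (lam * (2 + (J : ℝ) ^ 2 * q) + lam / 2 * T1 + lam / 2 * (s1 / T1) +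
        lam / 2 * (J : ℝ) ^ 3 / T1 * q + 5 / 4 * lam ^ 2) + 1776 * (6 * (J : ℝ) ^ 3 * q) +
      29600 * T * Z + 2960 * (101 * T) + 2960 * (2 * s1 / T) := by
    have e1 : lam / 2 * (T1 + s2 / T1) = lam / 2 * T1 + lam / 2 * (s2 / T1) := by ring
    rw [e1] at h7
    linarith
  have hcqq : cq * q = 1776 * (3 * (J : ℝ) ^ 2 * q + lam * (J : ℝ) ^ 2 * q +
      lam / 2 * (J : ℝ) ^ 3 / T1 * q + 6 * (J : ℝ) ^ 3 * q) + 2520 * lam * (J : ℝ) ^ 2 * q +
      128 * ((315 / 16 * (J : ℝ) ^ 3 + 750 * J) * q) := by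
    rw [hcq]; ring
  have hk : κ = 4 * k4 := by rw [hk4]; ring
  rw [hk]
  have hmain : 1369 * s3 - 2960 * VV B ≤ 1260 * (s1 - s2) +
      128 * ((315 / 16 * (J : ℝ) ^ 3 + 750 * J) * q) + 128 * (2 / √(J : ℝ) * QS P2 B 0 0) := by
    linarith
  linarith

open Classical in
/-- the variance law for all sets of natural numbers -/
theorem law (l g : ℕ) (hl : 1 ≤ l) (hlg : l ≤ g)
    (hcond : ((l : ℝ) + g - 1369 / 2520) ^ 2 < 4 * l * g) :
    ∃ δ : ℝ, 0 < δ ∧ ∃ C : ℝ, ∀ (A : Set ℕ) (N : ℕ), 1 ≤ N →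
      δ * Real.log N - C ≤ Dlow l A N + Dhigh g A (2 * N) := by
  have hl1 : (1 : ℝ) ≤ l := by exact_mod_cast hl
  have hg1 : (1 : ℝ) ≤ g := by
    have : 1 ≤ g := by omega
    exact_mod_cast this
  set lam : ℝ := (l : ℝ) + g - 1369 / 2520 with hlam
  have hlam0 : 0 < lam := by rw [hlam]; linarith
  set η : ℝ := 4 * l * g - lam ^ 2 with hη
  have hη0 : 0 < η := by rw [hη]; linarith
  set G : ℝ := (2 * (g : ℝ) + 1) ^ 2 with hG
  have hG0 : 0 < G := by positivity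
  set κ : ℝ := 315 * η / G with hκ
  have hκ0 : 0 < κ := by positivity
  have hκG : κ * G = 315 * η := by rw [hκ]; field_simp
  obtain ⟨T, hT0, C, hfin⟩ := finite_form lam hlam0 κ hκ0
  set c3 : ℝ := 4 * l * g + 2 * g + 1 with hc3
  have hc30 : 0 < c3 := by positivity
  -- the coefficient of `S_B`
  set cS : ℝ := 2520 * c3 + T with hcS
  have hcS0 : 0 < cS := by positivity
  set T2 : ℝ := 4 * cS / κ with hT2
  have hT20 : 0 < T2 := by positivity
  set cl : ℝ := 1260 * c3 + T with hcl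
  have hcl0 : 0 < cl := by positivity
  set ch : ℝ := 1260 + 2 * κ with hch
  have hch0 : 0 < ch := by positivity
  set c2 : ℝ := cl + ch with hc2
  have hc20 : 0 < c2 := by positivity
  refine ⟨630 * η / c2, by positivity, (1260 * c3 + |C| + 4 * cS * T2) / c2, ?_⟩
  intro A N hN
  set B := cut A N with hB
  have hBsub : B ⊆ Icc 1 N := by
    intro a ha
    exact (mem_filter.1 ha).1
  have h1 := hfin B N hBsub hN
  set R : ℕ → ℝ := fun n => (rep B n : ℝ) with hR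
  set s1 : ℝ := ee R (2 * N) with hs1
  set s3 : ℝ := ∑ n ∈ Icc 1 (2 * N), (rep B n : ℝ) / n with hs3
  set s0 : ℝ := ∑ n ∈ Icc 1 (2 * N), 1 / (n : ℝ) with hs0
  set SB : ℝ := ∑ a ∈ B, 1 / (a : ℝ) with hSB
  set Dl : ℝ := Dlow l A N with hDl
  set Dh : ℝ := Dhigh g A (2 * N) with hDh
  have hDl0 : 0 ≤ Dl := Dlow_nonneg _ _ _
  have hDh0 : 0 ≤ Dh := Dhigh_nonneg _ _ _
  have hs0nn : 0 ≤ s0 := sum_nonneg fun n _ => by positivity
  have hs1nn : 0 ≤ s1 := ee_nonneg _ _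
  have hSB0 : 0 ≤ SB := sum_nonneg fun n _ => by positivity
  have h2 : s1 - 2 * ((l : ℝ) + g) * s3 + 4 * l * g * s0 ≤ Dh + c3 * (2 * SB + Dl + 1) := by
    refine le_trans (le_of_eq ?_) (cut_quad l g hl hlg A N)
    rw [hs1, hs3, hs0]
    unfold ee
    rw [mul_sum, mul_sum, ← sum_sub_distrib, ← sum_add_distrib]
    refine sum_congr rfl fun n hn => ?_
    have := cpos hn
    simp only [hR]
    field_simp
    ring
  have h3 := cut_zeros l A N
  rw [← hB, ← hSB, ← hDl] at h3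
  have h4 := spa B N hBsub T2 hT20
  rw [← hR, ← hs1, ← hSB] at h4
  have h5 := cut_energy g A N
  rw [← hB, ← hR, ← hs1, ← hG, ← hs0, ← hDh] at h5
  -- products
  have p1 : T * ∑ n ∈ (Icc 1 N).filter (fun n => rep B n = 0), 1 / (n : ℝ) ≤ T * (Dl + SB) :=
    mul_le_mul_of_nonneg_left h3 hT0.le
  have p2 : cS * SB ≤ 4 * cS * T2 + κ * s1 := by
    calc cS * SB ≤ cS * (4 * T2 + 4 * s1 / T2) := mul_le_mul_of_nonneg_left h4 hcS0.le
      _ = 4 * cS * T2 + κ * s1 := by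
          rw [hT2]
          field_simp
  have p3 : 2 * κ * s1 ≤ 630 * η * s0 + 2 * κ * Dh := by
    have := mul_le_mul_of_nonneg_left h5 (by positivity : 0 ≤ 2 * κ)
    have e : 2 * κ * (G * s0 + Dh) = 2 * (κ * G) * s0 + 2 * κ * Dh := by ring
    rw [e, hκG] at this
    linarith
  have p4 : (1369 + 2520 * lam) * s3 = 2520 * ((l : ℝ) + g) * s3 := by
    rw [hlam]; ring
  rw [p4] at h1
  have hCabs := le_abs_self C
  have key : 630 * η * s0 ≤ 1260 * c3 + |C| + 4 * cS * T2 + cl * Dl + ch * Dh := by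
    have e1 : 1260 * η * s0 = 1260 * (4 * l * g * s0) - 1260 * lam ^ 2 * s0 := by rw [hη]; ring
    have e2 : cS * SB = 2520 * (c3 * SB) + T * SB := by rw [hcS]; ring
    have e3 : cl * Dl = 1260 * (c3 * Dl) + T * Dl := by rw [hcl]; ring
    have e4 : ch * Dh = 1260 * Dh + 2 * κ * Dh := by rw [hch]; ring
    have e5 : c3 * (2 * SB + Dl + 1) = 2 * (c3 * SB) + c3 * Dl + c3 := by ring
    rw [e5] at h2
    have e6 : T * (Dl + SB) = T * Dl + T * SB := by ring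
    rw [e6] at p1
    rw [e3, e4]
    rw [e2] at p2
    have e7 : 2520 * ((l : ℝ) + g) * s3 = 1260 * (2 * ((l : ℝ) + g) * s3) := by ring
    rw [e7] at h1
    linarith
  have h13 : Real.log N ≤ s0 := by
    have hN1 : (1 : ℝ) ≤ N := by exact_mod_cast hN
    have h14 : Real.log (N : ℝ) ≤ Real.log ((2 * N : ℕ) + 1 : ℝ) := by
      apply Real.log_le_log
      · linarith
      · push_cast
        linarith
    have h15 := log_add_one_le_harmonic (2 * N)
    have h16 : ((harmonic (2 * N) : ℚ) : ℝ) = s0 := by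
      rw [harmonic_eq_sum_Icc, hs0]
      push_cast
      refine sum_congr rfl fun n _ => ?_
      rw [one_div]
    rw [h16] at h15
    push_cast at h14 h15
    exact h14.trans h15
  have h17 : 630 * η * Real.log N ≤ 630 * η * s0 := mul_le_mul_of_nonneg_left h13 (by positivity)
  have h18 : cl * Dl ≤ c2 * Dl := mul_le_mul_of_nonneg_right (by rw [hc2]; linarith) hDl0
  have h19 : ch * Dh ≤ c2 * Dh := mul_le_mul_of_nonneg_right (by rw [hc2]; linarith) hDh0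
  rw [div_mul_eq_mul_div, div_sub_div_same, div_le_iff₀ hc20]
  linarith

end Pool.Agent.H38.ETU
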