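import Pool.Agent.H38.ET8.W247.ET.Stm

/-!
# The variance law without boundedness: basic estimates

`qq r L = ∑_{n ≤ L} r(n)² / n²` is the quantity in which all errors are measured.
-/

set_option autoImplicit false

open Finset

namespace Pool.Agent.H38.ETU

open Pool.Agent.W247.ET

/-- `∑_{n ≤ L} r(n)² / n²` -/
noncomputable def qq (r : ℕ → ℝ) (L : ℕ) : ℝ := ∑ n ∈ Icc 1 L, r n ^ 2 / (n : ℝ) ^ 2

/-- `∑_{n ≤ L} r(n)² / n` -/
noncomputable def ee (r : ℕ → ℝ) (L : ℕ) : ℝ := ∑ n ∈ Icc 1 L, r n ^ 2 / (n : ℝ)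

lemma qq_nonneg (r : ℕ → ℝ) (L : ℕ) : 0 ≤ qq r L := sum_nonneg fun n _ => by positivity

lemma ee_nonneg (r : ℕ → ℝ) (L : ℕ) : 0 ≤ ee r L := sum_nonneg fun n _ => by positivity

lemma cpos {n L : ℕ} (hn : n ∈ Icc 1 L) : (0 : ℝ) < n := by
  exact_mod_cast (mem_Icc.1 hn).1

lemma qq_le_ee (r : ℕ → ℝ) (L : ℕ) : qq r L ≤ ee r L := by
  apply sum_le_sum
  intro n hn
  have h0 := cpos hn
  have h1 : (1 : ℝ) ≤ n := by exact_mod_cast (mem_Icc.1 hn).1
  apply div_le_div_of_nonneg_left (by positivity) h0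
  nlinarith

/-- a shifted sum of a nonnegative function which vanishes beyond `L` -/
lemma shift_le (f : ℕ → ℝ) (hf : ∀ n, 0 ≤ f n) (L : ℕ) (hL : ∀ n, L < n → f n = 0) (i : ℕ) :
    ∑ k ∈ Icc 1 L, f (k + i) ≤ ∑ n ∈ Icc 1 L, f n := by
  have h1 : ∑ k ∈ Icc 1 L, f (k + i) = ∑ n ∈ (Icc 1 L).image (fun k => k + i), f n := by
    rw [sum_image]
    intro x _ y _ h
    simpa using h
  rw [h1, ← sum_filter_add_sum_filter_not _ (fun n => n ≤ L)]
  have h2 : ∑ n ∈ ((Icc 1 L).image (fun k => k + i)).filter (fun n => ¬ n ≤ L), f n = 0 := by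
    apply sum_eq_zero
    intro n hn
    exact hL n (by have := (mem_filter.1 hn).2; omega)
  rw [h2, add_zero]
  apply sum_le_sum_of_subset_of_nonneg
  · intro n hn
    rw [mem_filter, mem_image] at hn
    obtain ⟨⟨k, hk, rfl⟩, h⟩ := hn
    rw [mem_Icc] at hk ⊢
    omega
  · intro n _ _
    exact hf n

lemma Mw_nonneg {r : ℕ → ℝ} (hr : ∀ n, 0 ≤ r n) (J n : ℕ) : 0 ≤ Mw r J n :=
  div_nonneg (sum_nonneg fun i _ => hr _) (Nat.cast_nonneg _)

lemma Mw_zero {r : ℕ → ℝ} {L : ℕ} (hL : ∀ n, L < n → r n = 0) (J n : ℕ) (hn : L < n) :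
    Mw r J n = 0 := by
  unfold Mw
  rw [sum_eq_zero (fun i _ => hL (n + i) (by omega)), zero_div]

lemma Mw_sq (r : ℕ → ℝ) (J k : ℕ) (hJ : 1 ≤ J) :
    Mw r J k ^ 2 ≤ (∑ i ∈ range J, r (k + i) ^ 2) / J := by
  have hJ0 : (0 : ℝ) < J := by exact_mod_cast hJ
  unfold Mw
  rw [div_pow, div_le_div_iff₀ (by positivity) hJ0]
  have h := sq_sum_le_card_mul_sum_sq (s := range J) (f := fun i => r (k + i))
  rw [card_range] at h
  calc (∑ i ∈ range J, r (k + i)) ^ 2 * J ≤ (J * ∑ i ∈ range J, r (k + i) ^ 2) * J :=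
        mul_le_mul_of_nonneg_right h hJ0.le
    _ = (∑ i ∈ range J, r (k + i) ^ 2) * (J : ℝ) ^ 2 := by ring

lemma shift_qq (r : ℕ → ℝ) (L : ℕ) (hL : ∀ n, L < n → r n = 0) (i J : ℕ) (hi : i < J) :
    qq (fun n => r (n + i)) L ≤ (J : ℝ) ^ 2 * qq r L := by
  unfold qq
  have h := shift_le (fun n => r n ^ 2 / (n : ℝ) ^ 2) (fun n => by positivity) L
    (fun n hn => by simp [hL n hn]) i
  calc ∑ n ∈ Icc 1 L, r (n + i) ^ 2 / (n : ℝ) ^ 2
      ≤ ∑ n ∈ Icc 1 L, (J : ℝ) ^ 2 * (r (n + i) ^ 2 / ((n + i : ℕ) : ℝ) ^ 2) := by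
        apply sum_le_sum
        intro n hn
        have hn0 := cpos hn
        have hn1 : (1 : ℝ) ≤ n := by exact_mod_cast (mem_Icc.1 hn).1
        have hJ : (i : ℝ) + 1 ≤ J := by exact_mod_cast hi
        have hi0 : (0 : ℝ) ≤ i := Nat.cast_nonneg i
        push_cast
        rw [mul_div_assoc', div_le_div_iff₀ (by positivity) (by positivity)]
        have h1 : (n : ℝ) + i ≤ J * n := by nlinarith
        have h2 : ((n : ℝ) + i) ^ 2 ≤ (J * n) ^ 2 := pow_le_pow_left₀ (by positivity) h1 2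
        calc r (n + i) ^ 2 * ((n : ℝ) + i) ^ 2 ≤ r (n + i) ^ 2 * (J * n) ^ 2 :=
              mul_le_mul_of_nonneg_left h2 (sq_nonneg _)
          _ = (J : ℝ) ^ 2 * r (n + i) ^ 2 * (n : ℝ) ^ 2 := by ring
    _ = (J : ℝ) ^ 2 * ∑ n ∈ Icc 1 L, r (n + i) ^ 2 / ((n + i : ℕ) : ℝ) ^ 2 := by rw [mul_sum]
    _ ≤ _ := mul_le_mul_of_nonneg_left h (by positivity)

lemma qq_Mw (r : ℕ → ℝ) (L : ℕ) (hL : ∀ n, L < n → r n = 0) (J : ℕ) (hJ : 1 ≤ J) :
    qq (Mw r J) L ≤ (J : ℝ) ^ 2 * qq r L := by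
  have hJ0 : (0 : ℝ) < J := by exact_mod_cast hJ
  calc qq (Mw r J) L ≤ ∑ n ∈ Icc 1 L, (∑ i ∈ range J, r (n + i) ^ 2) / J / (n : ℝ) ^ 2 := by
        apply sum_le_sum
        intro n hn
        exact div_le_div_of_nonneg_right (Mw_sq r J n hJ) (by positivity)
    _ = (∑ i ∈ range J, qq (fun n => r (n + i)) L) / J := by
        unfold qq
        rw [sum_comm, sum_div]
        apply sum_congr rfl
        intro n _
        rw [← sum_div]
        ring
    _ ≤ (∑ _i ∈ range J, (J : ℝ) ^ 2 * qq r L) / J := by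
        apply div_le_div_of_nonneg_right _ hJ0.le
        exact sum_le_sum fun i hi => shift_qq r L hL i J (mem_range.1 hi)
    _ = (J : ℝ) ^ 2 * qq r L := by
        rw [sum_const, card_range, nsmul_eq_mul]
        field_simp

lemma shift_ee (r : ℕ → ℝ) (L : ℕ) (hL : ∀ n, L < n → r n = 0) (i J : ℕ) (hi : i < J) :
    ee (fun n => r (n + i)) L ≤ ee r L + (J : ℝ) ^ 3 * qq r L := by
  have h := shift_le (fun n => r n ^ 2 / (n : ℝ)) (fun n => by positivity) L
    (fun n hn => by simp [hL n hn]) i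
  have h2 := shift_qq r L hL i J hi
  have hJ : (i : ℝ) + 1 ≤ J := by exact_mod_cast hi
  have hi0 : (0 : ℝ) ≤ i := Nat.cast_nonneg i
  calc ee (fun n => r (n + i)) L
      ≤ ∑ n ∈ Icc 1 L, (r (n + i) ^ 2 / ((n + i : ℕ) : ℝ) + J * (r (n + i) ^ 2 / (n : ℝ) ^ 2)) := by
        apply sum_le_sum
        intro n hn
        have hn0 := cpos hn
        push_cast
        have e : r (n + i) ^ 2 / (n : ℝ) = r (n + i) ^ 2 / ((n : ℝ) + i) +
            r (n + i) ^ 2 * (i / (n * ((n : ℝ) + i))) := by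
          field_simp
        rw [e]
        apply add_le_add le_rfl
        rw [mul_div_assoc', mul_div_assoc', div_le_div_iff₀ (by positivity) (by positivity)]
        have h5 : 0 ≤ r (n + i) ^ 2 := sq_nonneg _
        have h6 : (i : ℝ) * n ^ 2 ≤ J * (n * (n + i)) := by
          have : (i : ℝ) * n ^ 2 ≤ J * n ^ 2 := mul_le_mul_of_nonneg_right (by linarith) (by positivity)
          have h7 : 0 ≤ (J : ℝ) * (n * i) := by positivity
          nlinarith
        calc r (n + i) ^ 2 * i * (n : ℝ) ^ 2 = r (n + i) ^ 2 * (i * n ^ 2) := by ring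
          _ ≤ r (n + i) ^ 2 * (J * (n * (n + i))) := mul_le_mul_of_nonneg_left h6 h5
          _ = _ := by ring
    _ = ∑ n ∈ Icc 1 L, r (n + i) ^ 2 / ((n + i : ℕ) : ℝ) + J * qq (fun n => r (n + i)) L := by
        unfold qq
        rw [sum_add_distrib, mul_sum]
    _ ≤ ee r L + J * ((J : ℝ) ^ 2 * qq r L) := by
        apply add_le_add h
        exact mul_le_mul_of_nonneg_left h2 (Nat.cast_nonneg _)
    _ = ee r L + (J : ℝ) ^ 3 * qq r L := by ring

lemma ee_Mw (r : ℕ → ℝ) (L : ℕ) (hL : ∀ n, L < n → r n = 0) (J : ℕ) (hJ : 1 ≤ J) :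
    ee (Mw r J) L ≤ ee r L + (J : ℝ) ^ 3 * qq r L := by
  have hJ0 : (0 : ℝ) < J := by exact_mod_cast hJ
  calc ee (Mw r J) L ≤ ∑ n ∈ Icc 1 L, (∑ i ∈ range J, r (n + i) ^ 2) / J / (n : ℝ) := by
        apply sum_le_sum
        intro n hn
        exact div_le_div_of_nonneg_right (Mw_sq r J n hJ) (cpos hn).le
    _ = (∑ i ∈ range J, ee (fun n => r (n + i)) L) / J := by
        unfold ee
        rw [sum_comm, sum_div]
        apply sum_congr rfl
        intro n _
        rw [← sum_div]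
        ring
    _ ≤ (∑ _i ∈ range J, (ee r L + (J : ℝ) ^ 3 * qq r L)) / J := by
        apply div_le_div_of_nonneg_right _ hJ0.le
        exact sum_le_sum fun i hi => shift_ee r L hL i J (mem_range.1 hi)
    _ = ee r L + (J : ℝ) ^ 3 * qq r L := by
        rw [sum_const, card_range, nsmul_eq_mul]
        field_simp

lemma sum_inv_sq (L : ℕ) : ∑ n ∈ Icc 1 L, 1 / (n : ℝ) ^ 2 ≤ 2 := by
  have key : ∀ M : ℕ, ∑ n ∈ Icc 1 M, 1 / (n : ℝ) ^ 2 ≤ 2 - 1 / (M : ℝ) := by
    intro M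
    induction M with
    | zero => simp
    | succ M ih =>
      rw [Finset.sum_Icc_succ_top (by omega)]
      rcases Nat.eq_zero_or_pos M with h | h
      · subst h
        norm_num
      · have hM : (0 : ℝ) < M := by exact_mod_cast h
        have e : 1 / ((M + 1 : ℕ) : ℝ) ^ 2 ≤ 1 / (M : ℝ) - 1 / ((M + 1 : ℕ) : ℝ) := by
          push_cast
          rw [div_sub_div _ _ hM.ne' (by positivity), div_le_div_iff₀ (by positivity) (by positivity)]
          nlinarith
        linarith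
  have h1 := key L
  have h2 : (0 : ℝ) ≤ 1 / (L : ℝ) := by positivity
  linarith

/-- `∑ r(n) / n² ≤ 2 + ∑ r(n)² / n²` -/
lemma lin_sq (r : ℕ → ℝ) (L : ℕ) : ∑ n ∈ Icc 1 L, r n / (n : ℝ) ^ 2 ≤ 2 + qq r L := by
  calc ∑ n ∈ Icc 1 L, r n / (n : ℝ) ^ 2
      ≤ ∑ n ∈ Icc 1 L, (1 / (n : ℝ) ^ 2 + r n ^ 2 / (n : ℝ) ^ 2) := by
        apply sum_le_sum
        intro n _
        rw [← add_div]
        apply div_le_div_of_nonneg_right _ (by positivity)
        nlinarith [sq_nonneg (r n - 1 / 2)]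
    _ = ∑ n ∈ Icc 1 L, 1 / (n : ℝ) ^ 2 + qq r L := by rw [sum_add_distrib]; rfl
    _ ≤ 2 + qq r L := by linarith [sum_inv_sq L]

/-- the mean `(1 / L) ∑ r(n)` is at most `T + ee / T` -/
lemma mean_le (r : ℕ → ℝ) (L : ℕ) (T : ℝ) (hT : 0 < T) :
    (∑ n ∈ Icc 1 L, r n) / L ≤ T + ee r L / T := by
  rcases Nat.eq_zero_or_pos L with h | h
  · subst h
    simp [ee]
    exact hT.le
  · have hL0 : (0 : ℝ) < L := by exact_mod_cast h
    rw [div_le_iff₀ hL0]
    have h1 : ∑ n ∈ Icc 1 L, r n ≤ ∑ n ∈ Icc 1 L, (T + L * (r n ^ 2 / n) / T) := by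
      apply sum_le_sum
      intro n hn
      have hn0 := cpos hn
      have hnL : (n : ℝ) ≤ L := by exact_mod_cast (mem_Icc.1 hn).2
      have h2 : r n ^ 2 ≤ L * (r n ^ 2 / n) := by
        rw [mul_div_assoc', le_div_iff₀ hn0, mul_comm]
        exact mul_le_mul_of_nonneg_right hnL (sq_nonneg _)
      have h3 : r n ≤ T + r n ^ 2 / T := by
        have : r n * T ≤ T * T + r n ^ 2 := by nlinarith [sq_nonneg (r n - T / 2)]
        have e : T + r n ^ 2 / T = (T * T + r n ^ 2) / T := by field_simp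
        rw [e, le_div_iff₀ hT]
        exact this
      have h4 : r n ^ 2 / T ≤ L * (r n ^ 2 / n) / T := div_le_div_of_nonneg_right h2 hT.le
      linarith
    refine h1.trans (le_of_eq ?_)
    rw [sum_add_distrib, sum_const, Nat.card_Icc, nsmul_eq_mul, ← sum_div, ← mul_sum]
    have e : ((L + 1 - 1 : ℕ) : ℝ) = L := by norm_num
    rw [e]
    unfold ee
    field_simp

/-- trivial bound of `qq` for representation functions -/
lemma rep_le (B : Finset ℕ) (h0 : 0 ∉ B) (n : ℕ) : rep B n ≤ n := by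
  unfold rep
  calc ((B ×ˢ B).filter (fun p => p.1 + p.2 = n)).card
      ≤ ((Icc 1 n).image (fun a => (a, n - a))).card := by
        apply card_le_card
        rintro ⟨a, b⟩ hp
        simp only [mem_filter, mem_product] at hp
        have ha : a ≠ 0 := fun h => h0 (h ▸ hp.1.1)
        rw [mem_image]
        refine ⟨a, ?_, ?_⟩
        · rw [mem_Icc]; omega
        · ext <;> simp <;> omega
    _ ≤ (Icc 1 n).card := card_image_le
    _ = n := by simp

lemma qq_rep (B : Finset ℕ) (h0 : 0 ∉ B) (L m : ℕ) (hm : 1 ≤ m) :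
    qq (fun n => (rep B n : ℝ)) L ≤ m + ee (fun n => (rep B n : ℝ)) L / m := by
  have hm0 : (0 : ℝ) < m := by exact_mod_cast hm
  unfold qq
  calc ∑ n ∈ Icc 1 L, (rep B n : ℝ) ^ 2 / (n : ℝ) ^ 2
      ≤ ∑ n ∈ Icc 1 L, ((if n ≤ m then 1 else 0) + (rep B n : ℝ) ^ 2 / (n : ℝ) / m) := by
        apply sum_le_sum
        intro n hn
        have hn0 := cpos hn
        split_ifs with h
        · have h1 : (rep B n : ℝ) ≤ n := by exact_mod_cast rep_le B h0 n
          have h2 : (rep B n : ℝ) ^ 2 / (n : ℝ) ^ 2 ≤ 1 := by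
            rw [div_le_one (by positivity)]
            exact pow_le_pow_left₀ (Nat.cast_nonneg _) h1 2
          have h3 : 0 ≤ (rep B n : ℝ) ^ 2 / (n : ℝ) / m := by positivity
          linarith
        · rw [zero_add, div_div]
          apply div_le_div_of_nonneg_left (by positivity) (by positivity)
          have : (m : ℝ) ≤ n := by exact_mod_cast (by omega : m ≤ n)
          nlinarith
    _ = (((Icc 1 L).filter (fun n => n ≤ m)).card : ℝ) +
          ee (fun n => (rep B n : ℝ)) L / m := by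
        rw [sum_add_distrib, sum_boole, ← sum_div]
        rfl
    _ ≤ m + ee (fun n => (rep B n : ℝ)) L / m := by
        apply add_le_add _ le_rfl
        have : ((Icc 1 L).filter (fun n => n ≤ m)).card ≤ m := by
          calc ((Icc 1 L).filter (fun n => n ≤ m)).card ≤ (Icc 1 m).card := by
                apply card_le_card
                intro n hn
                rw [mem_filter, mem_Icc] at hn
                rw [mem_Icc]
                omega
            _ = m := by simp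
        exact_mod_cast this

end Pool.Agent.H38.ETU
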