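import Pool.Agent.H38.ETU.Basic
import Pool.Agent.H38.ET8.W654.ET.RS

/-!
# The upper bound of the main quadratic form, without boundedness
-/

set_option autoImplicit false

open Finset

namespace Pool.Agent.H38.ETU

open Pool.Agent.W247.ET

theorem upy_pointwise (J : ℕ) (hJ : 1 ≤ J) (r : ℕ → ℝ) (hr : ∀ n, 0 ≤ r n) (k : ℕ)
    (hk : 1 ≤ k) :
    1 / 2 * (Mw r J k ^ 2 / k) - 1 / 2 * J * (Mw r J k ^ 2 / (k : ℝ) ^ 2) ≤
      (∑ i ∈ range J, ∑ i' ∈ range J, r (k + i) * r (k + i') /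
        (2 * (k : ℝ) + i + i')) / (J : ℝ) ^ 2 := by
  have hJ0 : (0 : ℝ) < J := by exact_mod_cast hJ
  have hk0 : (0 : ℝ) < k := by exact_mod_cast hk
  have hkJ : (0 : ℝ) < k + J := by linarith
  have h1 : (Mw r J k ^ 2 / (2 * ((k : ℝ) + J))) * (J : ℝ) ^ 2 ≤
      ∑ i ∈ range J, ∑ i' ∈ range J, r (k + i) * r (k + i') / (2 * (k : ℝ) + i + i') := by
    have e : (Mw r J k ^ 2 / (2 * ((k : ℝ) + J))) * (J : ℝ) ^ 2 =
        ∑ i ∈ range J, ∑ i' ∈ range J, r (k + i) * r (k + i') / (2 * ((k : ℝ) + J)) := by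
      have e1 : ∑ i ∈ range J, ∑ i' ∈ range J, r (k + i) * r (k + i') / (2 * ((k : ℝ) + J)) =
          (∑ i ∈ range J, r (k + i)) * (∑ i' ∈ range J, r (k + i')) / (2 * ((k : ℝ) + J)) := by
        rw [sum_mul_sum, sum_div]
        refine sum_congr rfl fun i _ => ?_
        rw [sum_div]
      rw [e1, Mw]
      field_simp
    rw [e]
    refine sum_le_sum fun i hi => sum_le_sum fun i' hi' => ?_
    have hi1 : (i : ℝ) ≤ J := by exact_mod_cast (mem_range.1 hi).le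
    have hi2 : (i' : ℝ) ≤ J := by exact_mod_cast (mem_range.1 hi').le
    have hi3 : (0 : ℝ) ≤ i := Nat.cast_nonneg _
    have hi4 : (0 : ℝ) ≤ i' := Nat.cast_nonneg _
    refine div_le_div_of_nonneg_left (mul_nonneg (hr _) (hr _)) (by linarith) (by linarith)
  have h2 : Mw r J k ^ 2 / (2 * ((k : ℝ) + J)) ≤
      (∑ i ∈ range J, ∑ i' ∈ range J, r (k + i) * r (k + i') /
        (2 * (k : ℝ) + i + i')) / (J : ℝ) ^ 2 := by
    rw [le_div_iff₀ (by positivity)]
    exact h1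
  refine le_trans ?_ h2
  have h3 : 1 / 2 * (Mw r J k ^ 2 / k) - Mw r J k ^ 2 / (2 * ((k : ℝ) + J)) =
      1 / 2 * J * (Mw r J k ^ 2 / (k * ((k : ℝ) + J))) := by
    field_simp
    ring
  have h4 : 1 / 2 * J * (Mw r J k ^ 2 / (k * ((k : ℝ) + J))) ≤
      1 / 2 * J * (Mw r J k ^ 2 / (k : ℝ) ^ 2) := by
    apply mul_le_mul_of_nonneg_left _ (by positivity)
    apply div_le_div_of_nonneg_left (sq_nonneg _) (by positivity)
    nlinarith
  linarith

theorem upy (J : ℕ) (hJ : 1 ≤ J) (r : ℕ → ℝ) (L : ℕ) (hr : ∀ n, 0 ≤ r n)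
    (hL : ∀ n, L < n → r n = 0) :
    1 / 2 * ee (Mw r J) L - (J : ℝ) ^ 3 * qq r L ≤
      (∑ i ∈ range J, ∑ i' ∈ range J, ∑ k ∈ Icc 1 L, r (k + i) * r (k + i') /
        (2 * (k : ℝ) + i + i')) / (J : ℝ) ^ 2 := by
  have hJ0 : (0 : ℝ) < J := by exact_mod_cast hJ
  have h1 : (∑ i ∈ range J, ∑ i' ∈ range J, ∑ k ∈ Icc 1 L, r (k + i) * r (k + i') /
      (2 * (k : ℝ) + i + i')) / (J : ℝ) ^ 2 =
      ∑ k ∈ Icc 1 L, (∑ i ∈ range J, ∑ i' ∈ range J, r (k + i) * r (k + i') /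
        (2 * (k : ℝ) + i + i')) / (J : ℝ) ^ 2 := by
    rw [← sum_div]
    congr 1
    have e : ∀ i ∈ range J, ∑ i' ∈ range J, ∑ k ∈ Icc 1 L, r (k + i) * r (k + i') /
        (2 * (k : ℝ) + i + i') = ∑ k ∈ Icc 1 L, ∑ i' ∈ range J, r (k + i) * r (k + i') /
        (2 * (k : ℝ) + i + i') := fun i _ => sum_comm
    rw [sum_congr rfl e, sum_comm]
  rw [h1]
  have h2 := sum_le_sum fun k (hk : k ∈ Icc 1 L) =>
    upy_pointwise J hJ r hr k (mem_Icc.1 hk).1
  refine le_trans ?_ h2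
  rw [sum_sub_distrib, ← mul_sum, ← mul_sum]
  have h3 := qq_Mw r L hL J hJ
  have h4 : 0 ≤ qq r L := qq_nonneg r L
  unfold qq at h3 h4
  unfold ee qq
  have h5 : 1 / 2 * (J : ℝ) * ∑ n ∈ Icc 1 L, Mw r J n ^ 2 / (n : ℝ) ^ 2 ≤
      1 / 2 * J * ((J : ℝ) ^ 2 * ∑ n ∈ Icc 1 L, r n ^ 2 / (n : ℝ) ^ 2) :=
    mul_le_mul_of_nonneg_left h3 (by positivity)
  have h6 : 0 ≤ (J : ℝ) ^ 3 * ∑ n ∈ Icc 1 L, r n ^ 2 / (n : ℝ) ^ 2 := by positivity
  nlinarith

/-- the error of the shifted quadruples -/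
lemma err_up (B : Finset ℕ) (N i i' : ℕ) (E : ℝ) (hE : 0 ≤ E) :
    ∑ n ∈ Icc 1 (2 * N), (rep B n : ℝ) * ∑ m ∈ Icc 1 (2 * N), (rep B m : ℝ) *
        (if n + i' = m + i then E / ((n : ℝ) + m) ^ 2 else 0) ≤
      E * qq (fun n => (rep B n : ℝ)) (2 * N) := by
  set f : ℕ → ℝ := fun n => (rep B n : ℝ) ^ 2 / (n : ℝ) ^ 2 with hf
  have hf0 : ∀ n, 0 ≤ f n := fun n => by positivity
  have h1 : ∀ n ∈ Icc 1 (2 * N), ∀ m ∈ Icc 1 (2 * N), (rep B n : ℝ) * ((rep B m : ℝ) *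
        (if n + i' = m + i then E / ((n : ℝ) + m) ^ 2 else 0)) ≤
      (if n + i' = m + i then E / 2 * f n else 0) + (if n + i' = m + i then E / 2 * f m else 0) := by
    intro n hn m hm
    have hn0 := cpos hn
    have hm0 := cpos hm
    split_ifs with h
    · have e1 : (rep B n : ℝ) ^ 2 / ((n : ℝ) + m) ^ 2 ≤ f n := by
        apply div_le_div_of_nonneg_left (by positivity) (by positivity)
        nlinarith
      have e2 : (rep B m : ℝ) ^ 2 / ((n : ℝ) + m) ^ 2 ≤ f m := by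
        apply div_le_div_of_nonneg_left (by positivity) (by positivity)
        nlinarith
      have e3 : (rep B n : ℝ) * ((rep B m : ℝ) * (E / ((n : ℝ) + m) ^ 2)) ≤
          E / 2 * ((rep B n : ℝ) ^ 2 / ((n : ℝ) + m) ^ 2) +
          E / 2 * ((rep B m : ℝ) ^ 2 / ((n : ℝ) + m) ^ 2) := by
        have h5 : 0 ≤ E / ((n : ℝ) + m) ^ 2 := by positivity
        have h6 := mul_nonneg h5 (sq_nonneg ((rep B n : ℝ) - rep B m))
        have h7 : E / 2 * ((rep B n : ℝ) ^ 2 / ((n : ℝ) + m) ^ 2) +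
            E / 2 * ((rep B m : ℝ) ^ 2 / ((n : ℝ) + m) ^ 2) -
            (rep B n : ℝ) * ((rep B m : ℝ) * (E / ((n : ℝ) + m) ^ 2)) =
            1 / 2 * (E / ((n : ℝ) + m) ^ 2 * ((rep B n : ℝ) - rep B m) ^ 2) := by
          ring
        linarith
      have e4 := mul_le_mul_of_nonneg_left e1 (by positivity : 0 ≤ E / 2)
      have e5 := mul_le_mul_of_nonneg_left e2 (by positivity : 0 ≤ E / 2)
      linarith
    · simp
  calc ∑ n ∈ Icc 1 (2 * N), (rep B n : ℝ) * ∑ m ∈ Icc 1 (2 * N), (rep B m : ℝ) *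
        (if n + i' = m + i then E / ((n : ℝ) + m) ^ 2 else 0)
      = ∑ n ∈ Icc 1 (2 * N), ∑ m ∈ Icc 1 (2 * N), (rep B n : ℝ) * ((rep B m : ℝ) *
        (if n + i' = m + i then E / ((n : ℝ) + m) ^ 2 else 0)) := by
        apply sum_congr rfl
        intro n _
        rw [mul_sum]
    _ ≤ ∑ n ∈ Icc 1 (2 * N), ∑ m ∈ Icc 1 (2 * N), ((if n + i' = m + i then E / 2 * f n else 0) +
          (if n + i' = m + i then E / 2 * f m else 0)) :=
        sum_le_sum fun n hn => sum_le_sum fun m hm => h1 n hn m hm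
    _ = ∑ n ∈ Icc 1 (2 * N), ∑ m ∈ Icc 1 (2 * N), (if n + i' = m + i then E / 2 * f n else 0) +
        ∑ m ∈ Icc 1 (2 * N), ∑ n ∈ Icc 1 (2 * N), (if n + i' = m + i then E / 2 * f m else 0) := by
        simp only [sum_add_distrib]
        congr 1
        rw [sum_comm]
    _ ≤ ∑ n ∈ Icc 1 (2 * N), E / 2 * f n + ∑ m ∈ Icc 1 (2 * N), E / 2 * f m := by
        apply add_le_add
        · apply sum_le_sum
          intro n _
          calc ∑ m ∈ Icc 1 (2 * N), (if n + i' = m + i then E / 2 * f n else 0)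
              ≤ ∑ m ∈ Icc 1 (2 * N), (if m = n + i' - i then E / 2 * f n else 0) := by
                apply sum_le_sum
                intro m _
                have := hf0 n
                split_ifs with a b b
                · exact le_rfl
                · omega
                · positivity
                · exact le_rfl
            _ ≤ E / 2 * f n := by
                rw [sum_ite_eq']
                have := hf0 n
                split_ifs
                · exact le_rfl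
                · positivity
        · apply sum_le_sum
          intro m _
          calc ∑ n ∈ Icc 1 (2 * N), (if n + i' = m + i then E / 2 * f m else 0)
              ≤ ∑ n ∈ Icc 1 (2 * N), (if n = m + i - i' then E / 2 * f m else 0) := by
                apply sum_le_sum
                intro n _
                have := hf0 m
                split_ifs with a b b
                · exact le_rfl
                · omega
                · positivity
                · exact le_rfl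
            _ ≤ E / 2 * f m := by
                rw [sum_ite_eq']
                have := hf0 m
                split_ifs
                · exact le_rfl
                · positivity
    _ = E * qq (fun n => (rep B n : ℝ)) (2 * N) := by
        unfold qq
        rw [← mul_sum]
        simp only [hf]
        ring

theorem rs2 (hKER : KER_stmt) (J : ℕ) (B : Finset ℕ) (N i i' : ℕ) (hB : B ⊆ Icc 1 N)
    (hi : i < J) (hi' : i' < J) :
    315 / 16 * ∑ k ∈ Icc 1 (2 * N), (rep B (k + i) : ℝ) * rep B (k + i') /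
      (2 * (k : ℝ) + i + i') - 750 * J * qq (fun n => (rep B n : ℝ)) (2 * N) ≤
      QS P1 B i i' + QS P2 B i i' := by
  rw [Pool.Agent.W654.ET.RS.QS_eq hKER B N i i' hB]
  have hlow : ∀ q ∈ quads B i i',
      Pool.Agent.W654.ET.RS.f1 (q.1.1 + q.2.2) (q.1.2 + q.2.1) -
      Pool.Agent.W654.ET.RS.f2 (750 * J) (q.1.1 + q.2.2) (q.1.2 + q.2.1) ≤
      Pool.Agent.W654.ET.RS.Wf ((q.1.1 : ℝ) + q.2.2) ((q.1.2 : ℝ) + q.2.1)
      ((q.1.1 : ℝ) * q.2.2) ((q.1.2 : ℝ) * q.2.1) := by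
    intro q hq
    rw [Pool.Agent.W654.ET.RS.mem_quads] at hq
    obtain ⟨⟨⟨q1, q2⟩, q3, q4⟩, q5⟩ := hq
    have p1 : (0 : ℝ) < q.1.1 := by
      have := (mem_Icc.mp (hB q1)).1
      exact_mod_cast this
    have p2 : (0 : ℝ) < q.1.2 := by
      have := (mem_Icc.mp (hB q2)).1
      exact_mod_cast this
    have p3 : (0 : ℝ) < q.2.1 := by
      have := (mem_Icc.mp (hB q3)).1
      exact_mod_cast this
    have p4 : (0 : ℝ) < q.2.2 := by
      have := (mem_Icc.mp (hB q4)).1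
      exact_mod_cast this
    have hnm : |((q.1.1 : ℝ) + q.2.2) - ((q.1.2 : ℝ) + q.2.1)| ≤ J := by
      have h5 : (q.1.1 : ℝ) + q.2.2 + i' = (q.1.2 : ℝ) + q.2.1 + i := by exact_mod_cast q5
      have h6 : (i : ℝ) ≤ J := by exact_mod_cast hi.le
      have h7 : (i' : ℝ) ≤ J := by exact_mod_cast hi'.le
      have h8 : (0 : ℝ) ≤ i := Nat.cast_nonneg _
      have h9 : (0 : ℝ) ≤ i' := Nat.cast_nonneg _
      rw [abs_le]
      constructor <;> linarith
    have hD := Pool.Agent.W654.ET.RS.Dp_bound ((q.1.1 : ℝ) + q.2.2) ((q.1.2 : ℝ) + q.2.1)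
      ((q.1.1 : ℝ) * q.2.2)
      ((q.1.2 : ℝ) * q.2.1) (by positivity) (by positivity) (by positivity) (by positivity)
      (by nlinarith [sq_nonneg ((q.1.1 : ℝ) - q.2.2)])
      (by nlinarith [sq_nonneg ((q.1.2 : ℝ) - q.2.1)])
    unfold Pool.Agent.W654.ET.RS.Wf Pool.Agent.W654.ET.RS.f1 Pool.Agent.W654.ET.RS.f2
    push_cast
    set s : ℝ := (q.1.1 : ℝ) + q.2.2 + ((q.1.2 : ℝ) + q.2.1) with hs
    have hs0 : 0 < s := by positivity
    have hD2 : -(750 * (J : ℝ) * s ^ 5) ≤ Dp ((q.1.1 : ℝ) + q.2.2) ((q.1.2 : ℝ) + q.2.1)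
        ((q.1.1 : ℝ) * q.2.2) ((q.1.2 : ℝ) * q.2.1) := by
      have h1 := (abs_le.mp hD).1
      have h2 : 750 * |((q.1.1 : ℝ) + q.2.2) - ((q.1.2 : ℝ) + q.2.1)| * s ^ 5 ≤
          750 * J * s ^ 5 := by
        refine mul_le_mul_of_nonneg_right ?_ (by positivity)
        linarith
      linarith
    have hD3 : -(750 * (J : ℝ) / s ^ 2) ≤ Dp ((q.1.1 : ℝ) + q.2.2) ((q.1.2 : ℝ) + q.2.1)
        ((q.1.1 : ℝ) * q.2.2) ((q.1.2 : ℝ) * q.2.1) / s ^ 7 := by
      rw [le_div_iff₀ (by positivity)]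
      refine le_trans (le_of_eq ?_) hD2
      field_simp
    linarith
  have h1 := Finset.sum_le_sum hlow
  rw [Finset.sum_sub_distrib, Pool.Agent.W654.ET.RS.sum_quads B N i i' hB
    Pool.Agent.W654.ET.RS.f1, Pool.Agent.W654.ET.RS.sum_quads B N i i' hB
    (Pool.Agent.W654.ET.RS.f2 (750 * J))] at h1
  have h2 := Pool.Agent.W654.ET.RS.main_low B N i i' hB
  have h3 := err_up B N i i' (750 * J) (by positivity)
  refine le_trans ?_ h1
  unfold Pool.Agent.W654.ET.RS.f1 Pool.Agent.W654.ET.RS.f2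
  linarith

/-- UPX without boundedness -/
theorem upx (hKER : KER_stmt) (hRS : RS_stmt) (J : ℕ) (hJ : 1 ≤ J) (B : Finset ℕ) (N : ℕ)
    (hB : B ⊆ Icc 1 N) :
    LK B J ≤ 315 / 32 * (ee (fun n => (rep B n : ℝ)) (2 * N) -
      ee (Mw (fun n => (rep B n : ℝ)) J) (2 * N)) +
      (315 / 16 * (J : ℝ) ^ 3 + 750 * J) * qq (fun n => (rep B n : ℝ)) (2 * N) := by
  set R : ℕ → ℝ := fun n => (rep B n : ℝ) with hR
  have hJ0 : (0 : ℝ) < J := by exact_mod_cast hJ
  have hJ2 : (0 : ℝ) < (J : ℝ) ^ 2 := by positivity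
  have e0 := hRS.1 B N hB
  have e1 := upy J hJ R (2 * N) (fun n => Nat.cast_nonneg _) (fun n hn => by
    show (rep B n : ℝ) = 0
    rw [Pool.Agent.W654.ET.RS.rep_zero B N n hB hn]
    simp)
  obtain ⟨S, hS⟩ : ∃ S : ℝ, S = ∑ i ∈ range J, ∑ i' ∈ range J, ∑ k ∈ Icc 1 (2 * N),
      R (k + i) * R (k + i') / (2 * (k : ℝ) + i + i') := ⟨_, rfl⟩
  set q : ℝ := qq R (2 * N) with hq
  have e2 : 315 / 16 * S - (J : ℝ) ^ 2 * (750 * J * q) ≤
      ∑ i ∈ range J, ∑ i' ∈ range J, (QS P1 B i i' + QS P2 B i i') := by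
    have e3 : 315 / 16 * S - (J : ℝ) ^ 2 * (750 * J * q) = ∑ i ∈ range J, ∑ i' ∈ range J,
        (315 / 16 * ∑ k ∈ Icc 1 (2 * N), R (k + i) * R (k + i') /
          (2 * (k : ℝ) + i + i') - 750 * J * q) := by
      rw [hS]
      simp only [sum_sub_distrib, ← mul_sum, sum_const, card_range, nsmul_eq_mul]
      ring
    rw [e3]
    refine sum_le_sum fun i hi => sum_le_sum fun i' hi' => ?_
    exact rs2 hKER J B N i i' hB (mem_range.1 hi) (mem_range.1 hi')
  have e4 : 315 / 16 * (S / (J : ℝ) ^ 2) - 750 * J * q ≤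
      (∑ i ∈ range J, ∑ i' ∈ range J, (QS P1 B i i' + QS P2 B i i')) / (J : ℝ) ^ 2 := by
    rw [le_div_iff₀ hJ2]
    refine le_trans (le_of_eq ?_) e2
    field_simp
  rw [← hS] at e1
  unfold LK
  rw [e0]
  have e5 : ∑ n ∈ Icc 1 (2 * N), (rep B n : ℝ) ^ 2 / n = ee R (2 * N) := rfl
  rw [e5]
  have e6 : 315 / 16 * (1 / 2 * ee (Mw R J) (2 * N) - (J : ℝ) ^ 3 * q) ≤
      315 / 16 * (S / (J : ℝ) ^ 2) := mul_le_mul_of_nonneg_left e1 (by norm_num)
  linarith

end Pool.Agent.H38.ETU
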